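import Pool.Agent.H537.GP.Fin

/-! The final assembly for weights supported outside of arbitrary periodic sets of residue classes, one
parity. -/

set_option autoImplicit false
set_option maxHeartbeats 4000000

open Finset Filter

namespace Pool.Agent.H537.TR

open Pool.Agent.H537.FG Pool.Agent.N914.MR Pool.Agent.H537.FT Pool.Agent.H537.GP

open Classical in
/-- the number of the forbidden classes modulo `p` -/
noncomputable def omV (V : ℕ → ℕ → Prop) (p : ℕ) : ℕ := ((range p).filter (fun n : ℕ => V p n)).card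

/-- the weights -/
noncomputable def hV (V : ℕ → ℕ → Prop) (p : ℕ) : ℝ := (omV V p : ℝ) / ((p : ℝ) - omV V p)

theorem hV_nonneg {V : ℕ → ℕ → Prop} {p : ℕ} (h : omV V p < p) : 0 ≤ hV V p := by
  unfold hV
  have : (omV V p : ℝ) < p := by exact_mod_cast h
  exact div_nonneg (Nat.cast_nonneg _) (by linarith)

theorem hV_le {V : ℕ → ℕ → Prop} {p : ℕ} {D : ℕ} (h : omV V p < p) (hom : omV V p ≤ D) :
    hV V p ≤ 2 * ((D : ℝ) + 1) ^ 2 / p := by
  unfold hV
  have h1 : (omV V p : ℝ) + 1 ≤ p := by exact_mod_cast h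
  have h0 : (0 : ℝ) ≤ omV V p := Nat.cast_nonneg _
  have hp0 : (0 : ℝ) < p := by linarith
  set D' : ℝ := (D : ℝ) + 1 with hD
  have hD1 : (1 : ℝ) ≤ D' := by
    have : (0 : ℝ) ≤ D := Nat.cast_nonneg _
    linarith
  have h2 : (omV V p : ℝ) ≤ D' := by
    have : (omV V p : ℝ) ≤ D := by exact_mod_cast hom
    linarith
  rw [div_le_div_iff₀ (by linarith) hp0]
  by_cases hc : (p : ℝ) ≤ 2 * D'
  · calc (omV V p : ℝ) * p ≤ D' * (2 * D') := mul_le_mul h2 hc hp0.le (by linarith)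
      _ = 2 * (D' : ℝ) ^ 2 * 1 := by ring
      _ ≤ _ := mul_le_mul_of_nonneg_left (by linarith) (by positivity)
  · push Not at hc
    have h3 : (p : ℝ) / 2 ≤ p - omV V p := by linarith
    calc (omV V p : ℝ) * p ≤ D' * p := mul_le_mul_of_nonneg_right h2 hp0.le
      _ ≤ D' ^ 2 * p := by
          apply mul_le_mul_of_nonneg_right _ hp0.le
          nlinarith
      _ = 2 * (D' : ℝ) ^ 2 * (p / 2) := by ring
      _ ≤ _ := mul_le_mul_of_nonneg_left h3 (by positivity)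

open Classical in
/-- the zeros in a progression -/
theorem zero_countV {V : ℕ → ℕ → Prop} (hper : ∀ p a b : ℕ, p.Prime → a ≡ b [MOD p] → (V p a ↔ V p b)) {p : ℕ} (hp : p.Prime) {P : ℕ} (hP : ¬ p ∣ P) (c S : ℕ) :
    ((Icc 1 S).filter (fun j : ℕ => V p (c + P * j))).card ≤
      omV V p * (S / p + 1) := by
  classical
  set R := (range p).filter (fun n : ℕ => V p n) with hR
  have hsub : (Icc 1 S).filter (fun j : ℕ => V p (c + P * j)) ⊆
      R.biUnion fun r => (Icc 1 S).filter (fun j => p ∣ (c + (p - r)) + P * j) := by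
    intro j hj
    rw [mem_filter] at hj
    rw [mem_biUnion]
    refine ⟨(c + P * j) % p, ?_, ?_⟩
    · rw [hR, mem_filter, mem_range]
      exact ⟨Nat.mod_lt _ hp.pos, (hper p _ _ hp (Nat.mod_modEq _ _)).mpr hj.2⟩
    · rw [mem_filter]
      refine ⟨hj.1, ?_⟩
      have h1 : (c + P * j) % p < p := Nat.mod_lt _ hp.pos
      have h2 := Nat.div_add_mod (c + P * j) p
      set t := (c + P * j) % p with ht
      set s := (c + P * j) / p with hs
      have h3 : c + (p - t) + P * j = p * (s + 1) := by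
        have : p * (s + 1) = p * s + p := by ring
        omega
      rw [h3]
      exact dvd_mul_right _ _
  calc _ ≤ _ := card_le_card hsub
    _ ≤ ∑ r ∈ R, ((Icc 1 S).filter (fun j => p ∣ (c + (p - r)) + P * j)).card := card_biUnion_le
    _ ≤ ∑ _r ∈ R, (S / p + 1) := sum_le_sum fun r _ => lin_count hp hP _ S
    _ = _ := by
        rw [sum_const, smul_eq_mul]
        rfl

open Classical in
/-- the choice of the residue class -/
theorem choose_rootV (V : ℕ → ℕ → Prop) (hper : ∀ p a b : ℕ, p.Prime → a ≡ b [MOD p] → (V p a ↔ V p b)) (D : ℕ) (hD : ∀ p : ℕ, p.Prime → omV V p ≤ D)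
    (hadm : ∀ p : ℕ, p.Prime → omV V p < p) (w z S : ℕ) (hw2 : 2 ≤ w)
    (hwz : w ≤ z) (hS : 1 ≤ S) :
    ∃ a : ℕ, (a : ℝ) ≤ ((S : ℝ) + 1) * 4 ^ z ∧ 1 ≤ a ∧
      (∀ p : ℕ, p.Prime → p ≤ w → ¬ V p a) ∧
      (∀ p ∈ Ioc w z, p.Prime → (∃ r : ℕ, V p r) → V p a) ∧
      (∀ p ∈ Ioc w z, p.Prime → p < a) ∧
      (((Ioc z S).filter (fun p : ℕ => p.Prime ∧ V p a)).card : ℝ) ≤
        ((D : ℝ) + 1) * (2 + Real.log S) := by
  classical
  have h1 : ∀ p : ℕ, ∃ r : ℕ, p.Prime → (p ≤ w → ¬ V p r) ∧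
      (w < p → (∃ r : ℕ, V p r) → V p r) := by
    intro p
    by_cases hp : p.Prime
    · by_cases hw : p ≤ w
      · have h2 := hadm p hp
        unfold omV at h2
        have h3 : ∃ n ∈ range p, ¬ V p n := by
          by_contra hc
          push Not at hc
          rw [filter_true_of_mem hc, card_range] at h2
          exact lt_irrefl _ h2
        obtain ⟨n, _, hn⟩ := h3
        exact ⟨n, fun _ => ⟨fun _ => hn, fun h => absurd hw (by omega)⟩⟩
      · by_cases hr : ∃ r : ℕ, V p r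
        · obtain ⟨r, hr'⟩ := hr
          exact ⟨r, fun _ => ⟨fun h => absurd h hw, fun _ _ => hr'⟩⟩
        · exact ⟨0, fun _ => ⟨fun h => absurd h hw, fun _ h => absurd h hr⟩⟩
    · exact ⟨0, fun h => absurd h hp⟩
  choose r hr using h1
  set T : Finset ℕ := (Icc 1 z).filter Nat.Prime with hT
  have hTp : ∀ p ∈ T, p.Prime := fun p hp => (mem_filter.mp hp).2
  have hpp : Set.Pairwise (T : Set ℕ) (Function.onFun Nat.Coprime fun p => p) := by
    intro p hp q hq hpq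
    exact (Nat.coprime_primes (hTp p (mem_coe.mp hp)) (hTp q (mem_coe.mp hq))).mpr hpq
  have hs : ∀ i ∈ T, (fun p : ℕ => p) i ≠ 0 := fun p hp => (hTp p hp).ne_zero
  obtain ⟨c', hc'⟩ := Nat.chineseRemainderOfFinset r (fun p => p) T hs hpp
  set P := ∏ p ∈ T, p with hP
  have hP4 : P ≤ 4 ^ z := by
    have : P = primorial z := by
      unfold primorial
      rw [hP, hT]
      apply prod_congr _ fun _ _ => rfl
      ext p
      rw [mem_filter, mem_filter, mem_Icc, mem_range]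
      constructor
      · rintro ⟨h1, h2⟩
        exact ⟨by omega, h2⟩
      · rintro ⟨h1, h2⟩
        exact ⟨⟨h2.one_le, by omega⟩, h2⟩
    rw [this]
    exact primorial_le_four_pow z
  have hPpos : 0 < P := prod_pos fun p hp => (hTp p hp).pos
  set c := c' % P with hc
  have hcP : c < P := Nat.mod_lt _ hPpos
  have hcong : ∀ j p : ℕ, p ∈ T → c + P * j ≡ r p [MOD p] := by
    intro j p hp
    have e1 : c + P * j ≡ c' [MOD P] := by
      have e2 : c + P * j ≡ c + 0 [MOD P] := by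
        apply Nat.ModEq.add_left
        exact Nat.modEq_zero_iff_dvd.mpr (dvd_mul_right _ _)
      exact e2.trans (Nat.mod_modEq c' P)
    exact (e1.of_dvd (dvd_prod_of_mem _ hp)).trans (hc' p hp)
  set Gs : Finset ℕ := (Ioc z S).filter Nat.Prime with hGs
  have hGP : ∀ p ∈ Gs, ¬ p ∣ P := by
    intro p hp hd
    rw [hGs, mem_filter, mem_Ioc] at hp
    rw [hP, (Nat.prime_iff.mp hp.2).dvd_finsetProd_iff] at hd
    obtain ⟨q, hq, hpq⟩ := hd
    have h2 := (Nat.prime_dvd_prime_iff_eq hp.2 (hTp q hq)).mp hpq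
    rw [hT, mem_filter, mem_Icc, ← h2] at hq
    omega
  have hS0 : (0 : ℝ) < S := by exact_mod_cast hS
  have hcount : ∀ p ∈ Gs, (((Icc 1 S).filter
      (fun j : ℕ => V p (c + P * j))).card : ℝ) ≤ ((D : ℝ) + 1) * (S / p + 1) := by
    intro p hp
    have hpp := (mem_filter.mp hp).2
    have hp0 : (0 : ℝ) < p := by exact_mod_cast hpp.pos
    have h2 : ((Icc 1 S).filter (fun j : ℕ => V p (c + P * j))).card ≤
        (D + 1) * (S / p + 1) := by
      refine (zero_countV hper hpp (hGP p hp) c S).trans ?_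
      exact Nat.mul_le_mul_right _ ((hD p hpp).trans (Nat.le_succ _))
    have h3 : ((S / p : ℕ) : ℝ) ≤ S / p := Nat.cast_div_le
    calc (((Icc 1 S).filter (fun j : ℕ => V p (c + P * j))).card : ℝ) ≤
        (((D + 1) * (S / p + 1) : ℕ) : ℝ) := by exact_mod_cast h2
      _ = ((D : ℝ) + 1) * (((S / p : ℕ) : ℝ) + 1) := by push_cast; ring
      _ ≤ _ := mul_le_mul_of_nonneg_left (by linarith) (by positivity)
  have hG1 : ∑ p ∈ Gs, (1 : ℝ) / p ≤ 1 + Real.log S := by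
    have hsub : Gs ⊆ Ioc 0 S := by
      intro p hp
      rw [hGs, mem_filter, mem_Ioc] at hp
      rw [mem_Ioc]
      omega
    refine (sum_le_sum_of_subset_of_nonneg hsub fun _ _ _ => by positivity).trans ?_
    have h3 := harm_le le_rfl hS
    have h4 : Ioc 0 S = insert 1 (Ioc 1 S) := by
      ext x
      simp only [mem_Ioc, mem_insert]
      omega
    rw [h4, sum_insert (by simp)]
    simp only [Nat.cast_one, Real.log_one, sub_zero, div_one] at h3 ⊢
    linarith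
  have hGc : (Gs.card : ℝ) ≤ S := by
    have hsub : Gs ⊆ Ioc 0 S := by
      intro p hp
      rw [hGs, mem_filter, mem_Ioc] at hp
      rw [mem_Ioc]
      omega
    have := card_le_card hsub
    rw [Nat.card_Ioc, Nat.sub_zero] at this
    exact_mod_cast this
  have htot : ∑ j ∈ Icc 1 S, ((Gs.filter (fun p : ℕ => V p (c + P * j))).card : ℝ) ≤
      ∑ j ∈ Icc 1 S, ((D : ℝ) + 1) * (2 + Real.log S) := by
    have e1 : ∑ j ∈ Icc 1 S, ((Gs.filter (fun p : ℕ => V p (c + P * j))).card : ℝ) =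
        ∑ p ∈ Gs, (((Icc 1 S).filter (fun j : ℕ => V p (c + P * j))).card : ℝ) := by
      simp only [card_filter, Nat.cast_sum]
      rw [sum_comm]
    rw [e1]
    refine (sum_le_sum hcount).trans ?_
    rw [← mul_sum, sum_add_distrib, sum_const, nsmul_eq_mul, mul_one, sum_const, Nat.card_Icc, nsmul_eq_mul]
    have e2 : ∑ p ∈ Gs, (S : ℝ) / p = S * ∑ p ∈ Gs, (1 : ℝ) / p := by
      rw [mul_sum]
      refine sum_congr rfl fun p _ => ?_
      ring
    rw [e2]
    have e3 : (S : ℝ) * ∑ p ∈ Gs, (1 : ℝ) / p ≤ S * (1 + Real.log S) := mul_le_mul_of_nonneg_left hG1 hS0.le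
    have e4 : ((S + 1 - 1 : ℕ) : ℝ) = S := by
      rw [Nat.add_sub_cancel]
    rw [e4]
    calc ((D : ℝ) + 1) * (S * ∑ p ∈ Gs, (1 : ℝ) / p + Gs.card) ≤ ((D : ℝ) + 1) * (S * (1 + Real.log S) + S) :=
          mul_le_mul_of_nonneg_left (by linarith) (by positivity)
      _ = _ := by ring
  obtain ⟨j, hj, hjb⟩ := exists_le_of_sum_le (nonempty_Icc.mpr hS) htot
  rw [mem_Icc] at hj
  have hPj : P ≤ P * j := Nat.le_mul_of_pos_right P hj.1
  refine ⟨c + P * j, ?_, ?_, ?_, ?_, ?_, ?_⟩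
  · have h2 : c + P * j ≤ (S + 1) * 4 ^ z := by
      calc c + P * j ≤ P + P * S := add_le_add hcP.le (Nat.mul_le_mul_left _ hj.2)
        _ = (S + 1) * P := by ring
        _ ≤ _ := Nat.mul_le_mul_left _ hP4
    exact_mod_cast h2
  · omega
  · intro p hp hpw hd
    have hpT : p ∈ T := mem_filter.mpr ⟨mem_Icc.mpr ⟨hp.one_le, hpw.trans hwz⟩, hp⟩
    exact (hr p hp).1 hpw ((hper p _ _ hp (hcong j p hpT)).mp hd)
  · intro p hp hpp' hroot
    rw [mem_Ioc] at hp
    have hpT : p ∈ T := mem_filter.mpr ⟨mem_Icc.mpr ⟨hpp'.one_le, hp.2⟩, hpp'⟩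
    exact (hper p _ _ hpp' (hcong j p hpT)).mpr ((hr p hpp').2 hp.1 hroot)
  · intro p hp hpp'
    rw [mem_Ioc] at hp
    have hpT : p ∈ T := mem_filter.mpr ⟨mem_Icc.mpr ⟨hpp'.one_le, hp.2⟩, hpp'⟩
    have h2T : 2 ∈ T := mem_filter.mpr ⟨mem_Icc.mpr ⟨by norm_num, by omega⟩, Nat.prime_two⟩
    have h2 : p * 2 ∣ P := by
      apply Nat.Coprime.mul_dvd_of_dvd_of_dvd _ (dvd_prod_of_mem _ hpT) (dvd_prod_of_mem _ h2T)
      exact (Nat.coprime_primes hpp' Nat.prime_two).mpr (by omega)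
    have h3 := Nat.le_of_dvd hPpos h2
    have h4 := hpp'.pos
    omega
  · refine le_trans (le_of_eq ?_) hjb
    congr 2
    rw [hGs, filter_filter]

open Classical in
theorem parityV (k : ℕ) (c0 : ℝ) (hc0 : 0 < c0) (B : ℝ) (hB : 0 < B)
    (K : ℕ) (hK2 : 2 ≤ K) (hBK : B < K) :
    ∃ η₀ : ℝ, 0 < η₀ ∧ ∀ η : ℝ, 0 < η → η ≤ η₀ → ∀ E : ℝ, 0 < E → ∀ ε : ℝ, 0 < ε → ∀ᶠ N : ℕ in atTop,
      ∀ (V : ℕ → ℕ → Prop) (Fv : ℕ → ℕ) (X : ℕ) (W : ℕ → ℝ) (I : ℕ → ℝ) (lam C : ℝ),
      (∀ p a b : ℕ, p.Prime → a ≡ b [MOD p] → (V p a ↔ V p b)) →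
      (∀ p : ℕ, p.Prime → omV V p < p ∧ omV V p ≤ k) →
      (∀ a : ℕ, 1 ≤ a → a ≤ N → ¬ V 2 a → Fv a ≠ 0 ∧ (Fv a : ℝ) ≤ (N : ℝ) ^ E ∧
        ∀ p : ℕ, p.Prime → V p a → p ∣ Fv a) →
      c0 ≤ ∑ p ∈ (Ioc (wF B K (Real.log N)) (zF B K (Real.log N))).filter
        (fun p : ℕ => p.Prime ∧ ∃ r : ℕ, V p r), (1 : ℝ) / p →
      (N : ℝ) / 2 ≤ X → X ≤ N → 0 < lam → 0 < C →
      (∀ n, W n ≠ 0 → ∀ p : ℕ, p.Prime → V p n → n ≤ p) →
      (∀ y : ℕ, (N : ℝ) / Real.log N ^ (B + 1) ≤ y → y ≤ X → |I y - lam * y| ≤ η * (lam * y)) →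
      (∀ q a y : ℕ, 1 ≤ q → (q : ℝ) ≤ Real.log N ^ (B + 1) →
        (∀ p : ℕ, p.Prime → p ∣ q → ¬ V p a) →
        (N : ℝ) / Real.log N ^ (B + 1) ≤ y → y ≤ X →
        |cntW W y a q - C * (gg (hV V) q / q) * I y| ≤ η * (C * (gg (hV V) q / q) * I y)) →
      ∃ a : ℕ, 1 ≤ a ∧ (a : ℝ) ≤ (N : ℝ) ^ ε ∧ ¬ V 2 a ∧
        1 ≤ ⌊(N : ℝ) / Real.log N ^ B⌋₊ ∧
        (∃ p ∈ Ioc (wF B K (Real.log N)) (zF B K (Real.log N)), p.Prime ∧ p < a ∧ V p a) ∧
        η * ∑ q ∈ (Ioc ⌊(N : ℝ) / Real.log N ^ B⌋₊ (2 * ⌊(N : ℝ) / Real.log N ^ B⌋₊)).filter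
            (fun q : ℕ => ∀ p : ℕ, p.Prime → p ∣ q → ¬ V p a), C * (gg (hV V) q / q) * I X ≤
          (-1) ^ K * (∑ q ∈ (Ioc ⌊(N : ℝ) / Real.log N ^ B⌋₊ (2 * ⌊(N : ℝ) / Real.log N ^ B⌋₊)).filter
            (fun q : ℕ => ∀ p : ℕ, p.Prime → p ∣ q → ¬ V p a), cntW W X a q -
            ∑ q ∈ (Ioc ⌊(N : ℝ) / Real.log N ^ B⌋₊ (2 * ⌊(N : ℝ) / Real.log N ^ B⌋₊)).filter
            (fun q : ℕ => ∀ p : ℕ, p.Prime → p ∣ q → ¬ V p a), C * (gg (hV V) q / q) * I X) := by
  classical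
  have hK0 : (0 : ℝ) < K := by
    have : 0 < K := by omega
    exact_mod_cast this
  have hK1 : (1 : ℝ) ≤ K := by
    have : 1 ≤ K := by omega
    exact_mod_cast this
  have hk0 : (0 : ℝ) ≤ k := Nat.cast_nonneg _
  obtain ⟨Cm, hCm, hmert⟩ := Pool.Agent.Helper923.HMertens.mertens_ratio
  set Ch : ℝ := 2 * ((k : ℝ) + 1) ^ 2 with hCh
  have hCh0 : 0 ≤ Ch := by positivity
  obtain ⟨η₀, hη₀, τ, hτ, S0, hS0, hasm⟩ := asm2 Ch c0 hCh0 hc0 K
  have hCR := CR_pos Ch
  refine ⟨η₀, hη₀, fun η hη hηle E hE ε hε => ?_⟩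
  set CA : ℝ := 2 * E with hCA
  have hCA0 : 0 < CA := by positivity
  have hlogX : Tendsto (fun X : ℕ => Real.log (X : ℝ)) atTop atTop :=
    Real.tendsto_log_atTop.comp tendsto_natCast_atTop_atTop
  set SS : ℝ := 2 * ((K : ℝ) + 1) / c0 + 20 * (|Cm| + 3) + 2 / c0 + 2 + 8 * K * |Cm| with hSS
  have hL1 := hlogX.eventually (parL B hB K hK2 (τ / 6) 3 SS (by positivity) (by norm_num))
  have hL2 := hlogX.eventually (parL2 B hB K hK2 k hk0)
  have hX1 := parX2 B hB K hK2 hBK (min ε 1) τ 3 CA ((1 + Ch) * CR Ch) η (lt_min hε one_pos) hτ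
    (by norm_num) hCA0 (by positivity) hη S0
  filter_upwards [hL1, hL2, hX1, hlogX.eventually_ge_atTop 1, eventually_ge_atTop 3] with N h1 h1' h2 hL1' hN3
  intro V Fv X W I lam C hper hVo hFv hroot hX hXN hlam hC hW hI hsmall
  have hadm : ∀ p : ℕ, p.Prime → omV V p < p := fun p hp => (hVo p hp).1
  set L := Real.log (N : ℝ) with hL
  set w := wF B K L with hwd
  set z := zF B K L with hz
  set S := SF B L with hS
  set Q := ⌊(N : ℝ) / L ^ B⌋₊ with hQ
  obtain ⟨g1, g2, g3, g4, g5, g6, g7⟩ := h1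
  obtain ⟨k1, k2, k3, k4, k5, k6, k7, k8, k9⟩ := h2
  have hN0 : (0 : ℝ) < N := by
    have : 0 < N := by omega
    exact_mod_cast this
  have hN1 : (1 : ℝ) ≤ N := by
    have : 1 ≤ N := by omega
    exact_mod_cast this
  have hp1 : 0 < 2 * ((K : ℝ) + 1) / c0 := by positivity
  have habs := abs_nonneg Cm
  have hp2 : 0 ≤ 20 * (|Cm| + 3) := by positivity
  have hp5 : 0 < 2 / c0 := by positivity
  have hp6 : 0 ≤ 8 * K * |Cm| := by positivity
  have hw2 : (2 : ℝ) ≤ w := by linarith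
  have hw2' : 2 ≤ w := by exact_mod_cast hw2
  have hlw2 : 2 ≤ Real.log w := by linarith
  have hlw0 : 0 < Real.log w := by linarith
  have hlz : Real.log w ≤ Real.log z := by
    have : 0 ≤ 1 / (2 * (K : ℝ)) * Real.log w := by positivity
    linarith
  have hlz0 : 0 < Real.log z := by linarith
  have hz0 : (0 : ℝ) < z := by
    by_contra hc
    have h0 : (z : ℝ) = 0 := le_antisymm (not_lt.mp hc) (Nat.cast_nonneg _)
    rw [h0, Real.log_zero] at hlz
    linarith
  have hwz : w ≤ z := by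
    have : (w : ℝ) ≤ z := (Real.log_le_log_iff (by linarith) hz0).mp hlz
    exact_mod_cast this
  have hzS : z ≤ S := by
    rw [hz, hS]
    unfold zF SF
    apply Nat.floor_le_floor
    apply Real.rpow_le_rpow_of_exponent_le hL1'
    have : B / K ≤ B := div_le_self hB.le hK1
    linarith
  have hnS := h1' (by omega) hlz
  have hom : ∀ p : ℕ, p.Prime → omV V p ≤ k := fun p hp => (hVo p hp).2
  obtain ⟨a, ha1, ha2, ha3, ha4, ha6, ha5⟩ := choose_rootV V hper k hom hadm w z S hw2' hwz k5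
  obtain ⟨m1, m2, m3, m4, m5, m6, m7, m8⟩ := k9 X a hX hXN ha1
  have haN : a ≤ N := by
    have : (1 : ℕ) ≤ (X - a) / Q := by omega
    have h5 : 1 * Q ≤ X - a := (Nat.le_div_iff_mul_le k1).mp this
    omega
  obtain ⟨hFne, hFle, hdF⟩ := hFv a ha2 haN (ha3 2 Nat.prime_two hw2')
  set F := Fv a with hF
  set A' : Finset ℕ := F.primeFactors.filter (fun p => V p a) with hA'
  set A : Finset ℕ := A'.filter (fun p => p ≤ S) with hA
  have hA'p : ∀ p ∈ A', p.Prime := fun p hp => Nat.prime_of_mem_primeFactors (mem_filter.mp hp).1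
  have hA'w : ∀ p ∈ A', w < p := by
    intro p hp
    by_contra hc
    push Not at hc
    exact ha3 p (hA'p p hp) hc (mem_filter.mp hp).2
  have hAw : ∀ p ∈ A, p.Prime ∧ w < p := fun p hp =>
    ⟨hA'p p (mem_filter.mp hp).1, hA'w p (mem_filter.mp hp).1⟩
  -- the number of the primes
  have hcard : (A.card : ℝ) ≤ 3 * z / Real.log w := by
    have hsub : A ⊆ (Ioc w z).filter Nat.Prime ∪ (Ioc z S).filter (fun p : ℕ => p.Prime ∧ V p a) := by
      intro p hp
      have hp' := mem_filter.mp hp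
      rw [mem_union, mem_filter, mem_filter, mem_Ioc, mem_Ioc]
      rcases Nat.lt_or_ge z p with h3 | h3
      · right
        exact ⟨⟨h3, hp'.2⟩, hA'p p hp'.1, (mem_filter.mp hp'.1).2⟩
      · left
        exact ⟨⟨hA'w p hp'.1, h3⟩, hA'p p hp'.1⟩
    have e1 : (A.card : ℝ) ≤ (((Ioc w z).filter Nat.Prime).card : ℝ) +
        (((Ioc z S).filter (fun p : ℕ => p.Prime ∧ V p a)).card : ℝ) := by
      exact_mod_cast (card_le_card hsub).trans (card_union_le _ _)
    have e2 := prime_card_le (z := z) (show 1 < w by omega)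
    have e3 : 3 * (z : ℝ) / Real.log w = 2 * z / Real.log w + z / Real.log w := by ring
    linarith
  have hlogF : Real.log F ≤ E * L := by
    have hF0 : (0 : ℝ) < F := by exact_mod_cast Nat.pos_of_ne_zero hFne
    have e3 := Real.log_le_log hF0 hFle
    rwa [Real.log_rpow hN0, ← hL] at e3
  have hcardA' : (A'.card : ℝ) ≤ CA * L := by
    have e2 : 2 ^ A'.card ≤ F := by
      calc 2 ^ A'.card = ∏ _p ∈ A', 2 := by rw [prod_const]
        _ ≤ ∏ p ∈ A', p := prod_le_prod' fun p hp => (hA'p p hp).two_le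
        _ ≤ ∏ p ∈ F.primeFactors, p := prod_le_prod_of_subset_of_one_le' (filter_subset _ _)
            fun p hp _ => (Nat.prime_of_mem_primeFactors hp).one_lt.le
        _ ≤ F := Nat.le_of_dvd (Nat.pos_of_ne_zero hFne) (Nat.prod_primeFactors_dvd F)
    have e3 : (2 : ℝ) ^ A'.card ≤ F := by exact_mod_cast e2
    have e4 := Real.log_le_log (by positivity) e3
    rw [Real.log_pow] at e4
    have e5 : (1 : ℝ) / 2 ≤ Real.log 2 := by
      have := Real.log_two_gt_d9
      linarith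
    have e6 : (A'.card : ℝ) * (1 / 2) ≤ A'.card * Real.log 2 :=
      mul_le_mul_of_nonneg_left e5 (Nat.cast_nonneg _)
    rw [hCA]
    linarith
  have hS0' : (0 : ℝ) < S := by exact_mod_cast k5
  have hcS : (A'.card : ℝ) / S ≤ CA * L / S := div_le_div_of_nonneg_right hcardA' hS0'.le
  have hs1 : c0 ≤ ∑ p ∈ A, rc p := by
    refine hroot.trans ?_
    calc ∑ p ∈ (Ioc w z).filter (fun p : ℕ => p.Prime ∧ ∃ r : ℕ, V p r), (1 : ℝ) / p =
        ∑ p ∈ (Ioc w z).filter (fun p : ℕ => p.Prime ∧ ∃ r : ℕ, V p r), rc p :=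
          sum_congr rfl fun p hp => (rc_eq (mem_filter.mp hp).2.1.pos).symm
      _ ≤ _ := by
          apply sum_le_sum_of_subset_of_nonneg _ fun p _ _ => rc_nonneg p
          intro p hp
          rw [mem_filter] at hp
          have h3 := mem_Ioc.mp hp.1
          rw [hA, mem_filter, hA', mem_filter, Nat.mem_primeFactors]
          have h4 := ha4 p hp.1 hp.2.1 hp.2.2
          exact ⟨⟨⟨hp.2.1, hdF p hp.2.1 h4, hFne⟩, h4⟩, by omega⟩
  have hs2 : ∑ p ∈ A, rc p ≤ 1 / 2 := by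
    refine (recip_le hAw (by omega : 0 < z)).trans ?_
    have e1 := (abs_le.mp (hmert w z hw2' hwz)).2
    have e2 : Real.log (Real.log z / Real.log w) ≤ 9 / 20 := by
      refine le_trans ?_ log_small
      apply Real.log_le_log (by positivity)
      rw [div_le_iff₀ hlw0]
      exact g4
    have e3 : (A.card : ℝ) / z ≤ 3 / Real.log w := by
      rw [div_le_iff₀ hz0]
      refine hcard.trans (le_of_eq ?_)
      ring
    have e4 : Cm / Real.log w + 3 / Real.log w ≤ 1 / 20 := by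
      rw [← add_div, div_le_iff₀ hlw0]
      have : Cm ≤ |Cm| := le_abs_self _
      linarith
    linarith
  have hwK : 2 * ((K : ℝ) + 1) ≤ c0 * w := by
    have e1 : 2 * ((K : ℝ) + 1) / c0 ≤ w := by linarith
    rw [div_le_iff₀ hc0] at e1
    linarith
  have hMw : (X - a) / Q < (w + 1) ^ (K + 1) := by
    have : (((X - a) / Q : ℕ) : ℝ) < ((w : ℝ) + 1) ^ (K + 1) := lt_of_le_of_lt m4 g6
    exact_mod_cast this
  have hcardK : ((A.card : ℝ) + 1) ^ K ≤ τ * (((X - a) / Q : ℕ) : ℝ) := by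
    calc ((A.card : ℝ) + 1) ^ K ≤ (3 * z / Real.log w + 1) ^ K :=
          pow_le_pow_left₀ (by positivity) (by linarith) K
      _ ≤ τ / 6 * L ^ B := g5
      _ ≤ τ / 6 * (6 * (((X - a) / Q : ℕ) : ℝ)) := mul_le_mul_of_nonneg_left m7 (by positivity)
      _ = _ := by ring
  have hcard2 : (2 : ℝ) ^ A.card ≤ τ * Q := by
    refine le_trans ?_ k3
    have e1 : (2 : ℝ) ^ A.card ≤ Real.exp 1 ^ A.card := by
      apply pow_le_pow_left₀ (by norm_num)
      have := Real.add_one_le_exp (1 : ℝ)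
      linarith
    refine e1.trans ?_
    rw [← Real.exp_nat_mul, mul_one]
    apply Real.exp_le_exp.mpr
    refine hcard.trans ?_
    exact div_le_self (by positivity) (by linarith)
  have hlog0 : 0 ≤ Real.log ((2 * Q : ℕ) : ℝ) := Real.log_nonneg (by
    have : 1 ≤ 2 * Q := by omega
    exact_mod_cast this)
  have hext : (1 + Ch) * CR Ch * (1 + Real.log ((2 * Q : ℕ) : ℝ)) * ((A'.card : ℝ) / S) ≤ η / 16 := by
    refine le_trans ?_ k8
    exact mul_le_mul_of_nonneg_left hcS (by positivity)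
  have hwa : w < a := by
    obtain ⟨p, hp⟩ : ((Ioc w z).filter (fun p : ℕ => p.Prime ∧ ∃ r : ℕ, V p r)).Nonempty := by
      by_contra hc
      rw [not_nonempty_iff_eq_empty] at hc
      rw [hc, sum_empty] at hroot
      linarith
    rw [mem_filter] at hp
    have h3 := ha6 p hp.1 hp.2.1
    rw [mem_Ioc] at hp
    omega
  have hWa : W a = 0 := by
    by_contra h0
    obtain ⟨p, hp⟩ : ((Ioc w z).filter (fun p : ℕ => p.Prime ∧ ∃ r : ℕ, V p r)).Nonempty := by
      by_contra hc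
      rw [not_nonempty_iff_eq_empty] at hc
      rw [hc, sum_empty] at hroot
      linarith
    rw [mem_filter] at hp
    have h4 := hW a h0 p hp.2.1 (ha4 p hp.1 hp.2.1 hp.2.2)
    have h5 := ha6 p hp.1 hp.2.1
    omega
  -- the values are coprime to the primes dividing `F`
  have hval : ∀ n m : ℕ, n ≡ a [MOD m] → 1 ≤ m → m < n → W n ≠ 0 → ∀ p ∈ A', ¬ p ∣ m := by
    intro n m hnm hm1 hmn hWn p hp hpm
    have h5 : n ≡ a [MOD p] := hnm.of_dvd hpm
    have hpp := hA'p p hp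
    have h6 : V p n := (hper p _ _ hpp h5).mpr (mem_filter.mp hp).2
    have h7 := hW n hWn p hpp h6
    have h8 := Nat.le_of_dvd hm1 hpm
    omega
  have hcop : ∀ q : ℕ, (∀ p : ℕ, p.Prime → p ∣ q → ¬ V p a) ↔ Fr A' q := by
    intro q
    constructor
    · intro h3 p hp hpq
      exact h3 p (hA'p p hp) hpq (mem_filter.mp hp).2
    · intro h3 p hp hpq hpG
      exact h3 p (mem_filter.mpr ⟨Nat.mem_primeFactors.mpr ⟨hp, hdF p hp hpG, hFne⟩, hpG⟩) hpq
  have hfin := hasm η hη hηle (hV V) A A' w X Q a S W I lam C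
    (fun p hp => hV_nonneg (hadm p hp)) (fun p hp => hV_le (hadm p hp) (hom p hp)) hAw hs1 hs2 hwK k1 m3 hMw m5
    hcardK hcard2 (filter_subset _ _) hA'p
    (fun p hp hpA => by
      by_contra hc
      push Not at hc
      exact hpA (mem_filter.mpr ⟨hp, hc⟩)) k5 (hcardA'.trans k6) (hcS.trans k7) hext hlam hC
    (fun y hy1 hy2 => hI y (k4.trans (by exact_mod_cast hy1)) hy2) m1 m2 hWa
    (by
      intro q m hq1 hq2 hm1 hm2 hR
      have hqm : q ≤ q * m := Nat.le_mul_of_pos_right q hm1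
      have hqm' : m ≤ q * m := Nat.le_mul_of_pos_left m (by omega)
      constructor
      · exact hval _ q (by unfold Nat.ModEq; simp) (by omega) (by omega) hR
      · intro p hp
        exact hval _ m (by unfold Nat.ModEq; simp) hm1 (by omega) hR p (mem_filter.mp hp).1)
    (by
      intro m y hm1 hmM hmF hy1 hy2
      have hmc : ∀ p : ℕ, p.Prime → p ∣ m → ¬ V p a := by
        intro p hp hpm hd
        have h3 := Nat.le_of_dvd hm1 hpm
        exact hmF p (mem_filter.mpr ⟨mem_filter.mpr ⟨Nat.mem_primeFactors.mpr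
          ⟨hp, hdF p hp hd, hFne⟩, hd⟩, by omega⟩) hpm
      have h5 := hsmall m a y hm1 (le_trans (by exact_mod_cast hmM) m6) hmc
        (k4.trans (by exact_mod_cast hy1)) hy2
      exact h5)
  refine ⟨a, ha2, (ha1.trans k2).trans (Real.rpow_le_rpow_of_exponent_le hN1 (min_le_left _ _)),
    ha3 2 Nat.prime_two hw2', k1, ?_, ?_⟩
  · obtain ⟨p, hp⟩ : ((Ioc w z).filter (fun p : ℕ => p.Prime ∧ ∃ r : ℕ, V p r)).Nonempty := by
      by_contra hc
      rw [not_nonempty_iff_eq_empty] at hc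
      rw [hc, sum_empty] at hroot
      linarith
    rw [mem_filter] at hp
    exact ⟨p, hp.1, hp.2.1, ha6 p hp.1 hp.2.1, ha4 p hp.1 hp.2.1 hp.2.2⟩
  have hfil : (Ioc Q (2 * Q)).filter (fun q : ℕ => ∀ p : ℕ, p.Prime → p ∣ q → ¬ V p a) =
      (Ioc Q (2 * Q)).filter (Fr A') := by
    apply filter_congr
    intro q _
    exact hcop q
  rw [hfil]
  exact hfin

end Pool.Agent.H537.TR
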