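import Mathlib
import Pool.Graph.R_seed8.W41.Sieve

/-! The fundamental lemma for at most `k` classes modulo each prime, in a residue class modulo `q`
(after `Pool.Agent.W41.fund`). -/

set_option autoImplicit false
set_option maxHeartbeats 4000000

open Finset

namespace Pool.Agent.H537.TR

open Pool.Agent.W41

theorem prod_choose (k : ℕ) : ∀ y : ℕ, k ≤ y → ∏ m ∈ Icc (k + 1) y, (1 - (k : ℝ) / m) = 1 / (y.choose k : ℝ) := by
  intro y hy
  induction y, hy using Nat.le_induction with
  | base => simp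
  | succ y hy ih =>
    rw [prod_Icc_succ_top (by omega), ih]
    have h1 := Nat.choose_mul_succ_eq y k
    have h2 : ((y.choose k : ℕ) : ℝ) * (y + 1) = ((y + 1).choose k : ℝ) * (y + 1 - k) := by
      have h3 : ((y.choose k * (y + 1) : ℕ) : ℝ) = (((y + 1).choose k * (y + 1 - k) : ℕ) : ℝ) := by rw [h1]
      push_cast [show k ≤ y + 1 by omega] at h3
      exact h3
    have h4 : (0 : ℝ) < (y.choose k : ℝ) := by exact_mod_cast Nat.choose_pos hy
    have h5 : (0 : ℝ) < ((y + 1).choose k : ℝ) := by exact_mod_cast Nat.choose_pos (by omega)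
    have h6 : (0 : ℝ) < (y : ℝ) + 1 := by positivity
    push_cast
    rw [div_mul_eq_mul_div, one_mul, div_eq_div_iff h4.ne' h5.ne', one_mul]
    have h7 : 1 - (k : ℝ) / (y + 1) = (y + 1 - k) / (y + 1) := by field_simp
    rw [h7, div_mul_eq_mul_div, div_eq_iff h6.ne']
    linarith

/-- a lower bound for the density -/
theorem VZ_ge {k : ℕ} {P : Finset ℕ} {y : ℕ} (hy : 1 ≤ y) (om : ℕ → ℕ)
    (hP : ∀ p ∈ P, p.Prime ∧ p ≤ y ∧ om p < p ∧ om p ≤ k) :
    1 / ((k.factorial : ℝ) * (y : ℝ) ^ k) ≤ ∏ p ∈ P, (1 - (om p : ℝ) / p) := by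
  classical
  have hy0 : (1 : ℝ) ≤ y := by exact_mod_cast hy
  have hk0 : (0 : ℝ) < k.factorial := by exact_mod_cast Nat.factorial_pos k
  have hdisj := disjoint_filter_filter_not P P (fun p => p ≤ k)
  have hsplit : ∏ p ∈ P, (1 - (om p : ℝ) / p) = (∏ p ∈ P.filter (fun p => p ≤ k), (1 - (om p : ℝ) / p)) *
      ∏ p ∈ P.filter (fun p => ¬ p ≤ k), (1 - (om p : ℝ) / p) := (prod_filter_mul_prod_filter_not P _ _).symm
  rw [hsplit, one_div, mul_inv]
  apply mul_le_mul
  · -- small primes
    have h1 : ∏ p ∈ P.filter (fun p => p ≤ k), (1 / (p : ℝ)) ≤ ∏ p ∈ P.filter (fun p => p ≤ k), (1 - (om p : ℝ) / p) := by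
      apply prod_le_prod (fun _ _ => by positivity)
      intro p hp
      have hp' := hP p (mem_filter.mp hp).1
      have hp0 : (0 : ℝ) < p := by exact_mod_cast hp'.1.pos
      have h2 : (om p : ℝ) + 1 ≤ p := by exact_mod_cast hp'.2.2.1
      rw [div_le_iff₀ hp0, sub_mul, div_mul_cancel₀ _ hp0.ne']
      linarith
    refine le_trans ?_ h1
    rw [prod_div_distrib, prod_const_one, one_div]
    apply inv_anti₀
    · exact prod_pos fun p hp => by exact_mod_cast (hP p (mem_filter.mp hp).1).1.pos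
    · have h3 : ∏ p ∈ P.filter (fun p => p ≤ k), p ≤ k.factorial := by
        rw [← prod_range_add_one_eq_factorial]
        have h4 : ∏ i ∈ range k, (i + 1) = ∏ m ∈ Icc 1 k, m := by
          rw [range_eq_Ico, prod_Ico_add' (fun m => m) 0 k 1]
          rfl
        rw [h4]
        apply prod_le_prod_of_subset_of_one_le'
        · intro p hp
          rw [mem_filter] at hp
          exact mem_Icc.mpr ⟨(hP p hp.1).1.one_lt.le, hp.2⟩
        · intro m hm _
          exact (mem_Icc.mp hm).1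
      have h5 : ((∏ p ∈ P.filter (fun p => p ≤ k), p : ℕ) : ℝ) ≤ (k.factorial : ℝ) := Nat.cast_le.mpr h3
      rwa [Nat.cast_prod] at h5
  · -- large primes
    rcases Nat.lt_or_ge y k with hyk | hyk
    · have h1 : P.filter (fun p => ¬ p ≤ k) = ∅ := by
        rw [filter_eq_empty_iff]
        intro p hp h
        have := (hP p hp).2.1
        omega
      rw [h1, prod_empty]
      exact inv_le_one_of_one_le₀ (one_le_pow₀ hy0)
    · have h0 := prod_choose k y hyk
      have hsub : P.filter (fun p => ¬ p ≤ k) ⊆ Icc (k + 1) y := by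
        intro p hp
        rw [mem_filter] at hp
        rw [mem_Icc]
        have := (hP p hp.1).2.1
        omega
      have h1 : ∏ p ∈ P.filter (fun p => ¬ p ≤ k), (1 - (k : ℝ) / p) ≤
          ∏ p ∈ P.filter (fun p => ¬ p ≤ k), (1 - (om p : ℝ) / p) := by
        apply prod_le_prod
        · intro p hp
          have h3 := (mem_Icc.mp (hsub hp)).1
          have h4 : (k : ℝ) ≤ p := by
            have : k ≤ p := by omega
            exact_mod_cast this
          have hp0 : (0 : ℝ) < p := by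
            have : 0 < p := by omega
            exact_mod_cast this
          rw [sub_nonneg, div_le_one hp0]
          exact h4
        · intro p hp
          have hp' := hP p (mem_filter.mp hp).1
          have hp0 : (0 : ℝ) < p := by exact_mod_cast hp'.1.pos
          have h3 : (om p : ℝ) ≤ k := by exact_mod_cast hp'.2.2.2
          have h4 : (om p : ℝ) / p ≤ k / p := div_le_div_of_nonneg_right h3 hp0.le
          linarith
      refine le_trans ?_ h1
      have h2 : ∏ m ∈ Icc (k + 1) y, (1 - (k : ℝ) / m) ≤ ∏ p ∈ P.filter (fun p => ¬ p ≤ k), (1 - (k : ℝ) / p) := by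
        rw [← prod_sdiff hsub]
        have h3 : ∏ m ∈ Icc (k + 1) y \ P.filter (fun p => ¬ p ≤ k), (1 - (k : ℝ) / m) ≤ 1 := by
          apply prod_le_one
          · intro m hm
            have h4 := (mem_Icc.mp (mem_sdiff.mp hm).1).1
            have h5 : (k : ℝ) ≤ m := by
              have : k ≤ m := by omega
              exact_mod_cast this
            have hm0 : (0 : ℝ) < m := by
              have : 0 < m := by omega
              exact_mod_cast this
            rw [sub_nonneg, div_le_one hm0]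
            exact h5
          · intro m _
            have : 0 ≤ (k : ℝ) / m := by positivity
            linarith
        have h4 : 0 ≤ ∏ p ∈ P.filter (fun p => ¬ p ≤ k), (1 - (k : ℝ) / p) := by
          apply prod_nonneg
          intro p hp
          have h3 := (mem_Icc.mp (hsub hp)).1
          have h4 : (k : ℝ) ≤ p := by
            have : k ≤ p := by omega
            exact_mod_cast this
          have hp0 : (0 : ℝ) < p := by
            have : 0 < p := by omega
            exact_mod_cast this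
          rw [sub_nonneg, div_le_one hp0]
          exact h4
        calc _ ≤ 1 * ∏ p ∈ P.filter (fun p => ¬ p ≤ k), (1 - (k : ℝ) / p) := mul_le_mul_of_nonneg_right h3 h4
          _ = _ := one_mul _
      refine le_trans ?_ h2
      rw [h0, one_div]
      apply inv_anti₀
      · exact_mod_cast Nat.choose_pos hyk
      · have h5 : y.choose k ≤ y ^ k := Nat.choose_le_pow y k
        exact_mod_cast h5
  · positivity
  · apply prod_nonneg
    intro p hp
    have hp' := hP p (mem_filter.mp hp).1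
    have hp0 : (0 : ℝ) < p := by exact_mod_cast hp'.1.pos
    have h2 : (om p : ℝ) ≤ p := by exact_mod_cast hp'.2.2.1.le
    rw [sub_nonneg, div_le_one hp0]
    exact h2

open Classical in
/-- the fundamental lemma: the `n ≤ X`, `n ≡ c (mod q)`, with `n % p` outside `Z p` for all `p ∈ P` -/
theorem fundG (k : ℕ) {ε : ℝ} (hε : 0 < ε) : ∃ K y0 : ℕ, 1 ≤ K ∧ 2 ≤ y0 ∧ ∀ y : ℕ, y0 ≤ y → ∀ q c X : ℕ, 1 ≤ q →
    q * y ^ K ≤ X → ∀ (P : Finset ℕ) (Z : ℕ → ℕ → Prop) (om : ℕ → ℕ),
    (∀ p ∈ P, p.Prime ∧ p ≤ y ∧ om p < p ∧ om p ≤ k) → (∀ p ∈ P, ¬ p ∣ q) →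
    (∀ p ∈ P, ((range p).filter (Z p)).card = om p) →
    |((((Icc 1 X).filter (fun n : ℕ => n ≡ c [MOD q] ∧ ∀ p ∈ P, ¬ Z p (n % p))).card : ℕ) : ℝ) -
      X / q * ∏ p ∈ P, (1 - (om p : ℝ) / p)| ≤ ε * (X / q * ∏ p ∈ P, (1 - (om p : ℝ) / p)) := by
  obtain ⟨C0, hC0, hFL⟩ := Pool.Agent.H20R2.fLem k
  obtain ⟨b1, hb1⟩ := exists_pow_lt_of_lt_one (half_pos hε) (show (1 / 2 : ℝ) < 1 by norm_num)
  set b := max C0 b1 with hb
  have hbC : C0 ≤ b := le_max_left _ _
  have hb1' : 1 ≤ b := hC0.trans hbC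
  have hbε : (1 / 2 : ℝ) ^ b ≤ ε / 2 := (pow_le_pow_of_le_one (by norm_num) (by norm_num) (le_max_right _ _)).trans hb1.le
  set z0 := C0 + 1 with hz0
  set K0 : ℕ := ∏ p ∈ (Icc 1 z0).filter Nat.Prime, p with hK0
  have hK01 : 1 ≤ K0 := Nat.pos_of_ne_zero (prod_ne_zero_iff.2 fun p hp => (mem_filter.1 hp).2.ne_zero)
  have hCb : 1 ≤ C0 * b := Nat.mul_pos hC0 hb1'
  obtain ⟨e0, he0⟩ := exists_nat_gt (4 / ε)
  refine ⟨4 * (C0 * b) + 3 + k, max (K0 * k.factorial) (max (z0 + 3) (e0 + 2)), by omega, ?_, fun y hy q c X hq hX P Z om hP hPq hZ => ?_⟩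
  · have : z0 + 3 ≤ max (K0 * k.factorial) (max (z0 + 3) (e0 + 2)) := le_trans (le_max_left _ _) (le_max_right _ _)
    omega
  have hyK : K0 * k.factorial ≤ y := le_trans (le_max_left _ _) hy
  have hyz : z0 + 3 ≤ y := le_trans (le_trans (le_max_left _ _) (le_max_right _ _)) hy
  have hye : e0 + 2 ≤ y := le_trans (le_trans (le_max_right _ _) (le_max_right _ _)) hy
  have hPp : ∀ p ∈ P, p.Prime := fun p hp => (hP p hp).1
  have hq0 : (0 : ℝ) < q := by exact_mod_cast hq
  set J := JJ y with hJ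
  set Y : ℕ := 2 ^ 2 ^ J with hY
  have hyY : y < Y := JJ_lt y
  have hYy : Y ≤ y ^ 2 := JJ_le y (by omega)
  set D : ℕ := Y ^ (C0 * b) with hD
  set P0 : Finset ℕ := P.filter (fun p => p ≤ z0) with hP0
  set P1 : Finset ℕ := P.filter (fun p => ¬ p ≤ z0) with hP1
  have hPu : P = P0 ∪ P1 := (filter_union_filter_not_eq _ _).symm
  have hdisj : Disjoint P0 P1 := disjoint_filter_filter_not _ _ _
  have hfac : ∀ p ∈ P, 0 ≤ 1 - (om p : ℝ) / p := by
    intro p hp
    have hp0 : (0 : ℝ) < p := by exact_mod_cast (hP p hp).1.pos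
    have h2 : (om p : ℝ) ≤ p := by exact_mod_cast (hP p hp).2.2.1.le
    rw [sub_nonneg, div_le_one hp0]
    exact h2
  have hPp1 : ∀ p ∈ P1, p.Prime ∧ z0 < p ∧ p ≤ Y := by
    intro p hp
    rw [hP1, mem_filter] at hp
    exact ⟨hPp p hp.1, by omega, (((hP p hp.1).2.1).trans hyY.le)⟩
  have hPp0 : ∀ p ∈ P0, p.Prime ∧ p ≤ z0 := by
    intro p hp
    rw [hP0, mem_filter] at hp
    exact ⟨hPp p hp.1, hp.2⟩
  have hP0P : ∀ p ∈ P0, p ∈ P := fun p hp => (mem_filter.mp hp).1
  have hP1P : ∀ p ∈ P1, p ∈ P := fun p hp => (mem_filter.mp hp).1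
  set V0 : ℝ := ∏ p ∈ P0, (1 - (om p : ℝ) / p) with hV0
  set V : ℝ := ∏ p ∈ P, (1 - (om p : ℝ) / p) with hVd
  have hV : V = V0 * ∏ p ∈ P1, (1 - (om p : ℝ) / p) := by
    rw [hVd, hV0, ← prod_union hdisj, ← hPu]
  have hV00 : 0 ≤ V0 := prod_nonneg fun p hp => hfac p (hP0P p hp)
  set A0 : ℝ := (X : ℝ) / q * V0 with hA0
  have hA00 : 0 ≤ A0 := by positivity
  have key := hFL b J z0 P1 (fun p => (om p : ℝ) / p) hbC (by omega) hPp1 (fun p hp => by
      have hp0 : (0 : ℝ) < p := by exact_mod_cast (hPp1 p hp).1.pos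
      have hp1 : (1 : ℝ) < p := by exact_mod_cast (hPp1 p hp).1.one_lt
      refine ⟨by positivity, ?_⟩
      have h3 : (om p : ℝ) ≤ k := by exact_mod_cast (hP p (hP1P p hp)).2.2.2
      calc (om p : ℝ) / p ≤ k / p := div_le_div_of_nonneg_right h3 hp0.le
        _ ≤ k / ((p : ℝ) - 1) := div_le_div_of_nonneg_left (Nat.cast_nonneg _) (by linarith) (by linarith))
    ((Icc 1 X).filter (fun n => n ≡ c [MOD q] ∧ ∀ p ∈ P0, ¬ Z p (n % p))) (fun _ => (1 : ℝ)) (fun p n => Z p (n % p)) A0
    (fun _ => (K0 : ℝ) * D)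
    (fun _ _ => zero_le_one) hA00 (by
      intro T hT hTD
      have hTp : ∀ p ∈ T, p.Prime := fun p hp => (hPp1 p (hT hp)).1
      have hdT : Disjoint P0 T := disjoint_of_subset_right hT hdisj
      have hTz : ∀ p ∈ T, ¬ p ≤ z0 := fun p hp => by have := (hPp1 p (hT hp)).2.1; omega
      have h3 := Pool.Agent.H373R2.T7.count_sys (fun p a => if p ≤ z0 then ¬ Z p a else Z p a) X (P0 ∪ T) (fun p hp => by
        rcases mem_union.1 hp with h | h
        · exact (hPp0 p h).1
        · exact hTp p h) q hq (fun p hp => by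
          rcases mem_union.1 hp with h | h
          · exact hPq p (hP0P p h)
          · exact hPq p (hP1P p (hT h))) c
      have c1 : ∀ p ∈ P0, (((range p).filter (fun a => if p ≤ z0 then ¬ Z p a else Z p a)).card : ℝ) = p - om p := by
        intro p hp
        simp only [if_pos (hPp0 p hp).2]
        have h4 := card_filter_add_card_filter_not (s := range p) (Z p)
        rw [card_range] at h4
        have h6 : ((range p).filter (Z p)).card = om p := by
          rw [← hZ p (hP0P p hp)]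
        rw [h6] at h4
        have h7 : (om p : ℝ) + (((range p).filter (fun a => ¬ Z p a)).card : ℝ) = p := by exact_mod_cast h4
        linarith
      have c2 : ∀ p ∈ T, (((range p).filter (fun a => if p ≤ z0 then ¬ Z p a else Z p a)).card : ℝ) = om p := by
        intro p hp
        simp only [if_neg (hTz p hp)]
        have h6 : ((range p).filter (fun a => Z p a)).card = om p := by
          rw [← hZ p (hP1P p (hT hp))]
        exact_mod_cast h6
      rw [prod_union hdT, prod_union hdT] at h3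
      have e1 : ∏ p ∈ P0, ((((range p).filter (fun a => if p ≤ z0 then ¬ Z p a else Z p a)).card : ℝ) / p) = V0 := by
        rw [hV0]
        apply prod_congr rfl
        intro p hp
        rw [c1 p hp]
        have hp0 : (p : ℝ) ≠ 0 := by exact_mod_cast (hPp0 p hp).1.ne_zero
        field_simp
      have e2 : ∏ p ∈ T, ((((range p).filter (fun a => if p ≤ z0 then ¬ Z p a else Z p a)).card : ℝ) / p) = ∏ p ∈ T, ((om p : ℝ) / p) := by
        apply prod_congr rfl
        intro p hp
        rw [c2 p hp]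
      have e3 : ∏ p ∈ P0, (((range p).filter (fun a => if p ≤ z0 then ¬ Z p a else Z p a)).card : ℝ) ≤ K0 := by
        rw [hK0]
        push_cast
        have h5 : ∏ p ∈ P0, (((range p).filter (fun a => if p ≤ z0 then ¬ Z p a else Z p a)).card : ℝ) ≤ ∏ p ∈ P0, (p : ℝ) := by
          apply prod_le_prod (fun _ _ => Nat.cast_nonneg _)
          intro p hp
          rw [c1 p hp]
          have : (0 : ℝ) ≤ om p := Nat.cast_nonneg _
          linarith
        refine h5.trans ?_
        apply prod_le_prod_of_subset_of_one_le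
        · intro p hp
          rw [mem_filter, mem_Icc]
          exact ⟨⟨(hPp0 p hp).1.one_lt.le, (hPp0 p hp).2⟩, (hPp0 p hp).1⟩
        · intro p _; exact Nat.cast_nonneg _
        · intro p hp _
          exact_mod_cast (mem_filter.1 hp).2.one_lt.le
      have e4 : ∏ p ∈ T, (((range p).filter (fun a => if p ≤ z0 then ¬ Z p a else Z p a)).card : ℝ) ≤ D := by
        have h5 : ∏ p ∈ T, (((range p).filter (fun a => if p ≤ z0 then ¬ Z p a else Z p a)).card : ℝ) ≤ ∏ p ∈ T, (p : ℝ) := by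
          apply prod_le_prod (fun _ _ => Nat.cast_nonneg _)
          intro p hp
          rw [c2 p hp]
          exact_mod_cast (hP p (hP1P p (hT hp))).2.2.1.le
        refine h5.trans ?_
        have h6 : ((∏ p ∈ T, p : ℕ) : ℝ) ≤ ((D : ℕ) : ℝ) := Nat.cast_le.mpr hTD
        rwa [Nat.cast_prod] at h6
      rw [e1, e2] at h3
      have e5 : ∑ m ∈ ((Icc 1 X).filter (fun n => n ≡ c [MOD q] ∧ ∀ p ∈ P0, ¬ Z p (n % p))).filter (fun m => ∀ p ∈ T, Z p (m % p)), (1 : ℝ) =
          (((Icc 1 X).filter (fun n => n ≡ c [MOD q] ∧ ∀ p ∈ P0 ∪ T, if p ≤ z0 then ¬ Z p (n % p) else Z p (n % p))).card : ℝ) := by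
        rw [sum_const, nsmul_eq_mul, mul_one, filter_filter]
        congr 2
        apply filter_congr
        intro n _
        constructor
        · rintro ⟨⟨h5, h7⟩, h6⟩
          refine ⟨h5, fun p hp => ?_⟩
          rcases mem_union.1 hp with h | h
          · rw [if_pos (hPp0 p h).2]
            exact h7 p h
          · rw [if_neg (hTz p h)]
            exact h6 p h
        · rintro ⟨h4, h5⟩
          refine ⟨⟨h4, ?_⟩, ?_⟩
          · intro p hp
            have h8 := h5 p (mem_union_left _ hp)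
            rwa [if_pos (hPp0 p hp).2] at h8
          · intro p hp
            have h8 := h5 p (mem_union_right _ hp)
            rwa [if_neg (hTz p hp)] at h8
      have e6 := mul_le_mul e3 e4 (prod_nonneg fun p _ => Nat.cast_nonneg _) (Nat.cast_nonneg K0)
      have h6 := h3.trans e6
      rw [← e5] at h6
      rw [hA0, mul_assoc]
      refine le_trans (le_of_eq ?_) h6
      congr 2)
  have f1 : ∑ m ∈ ((Icc 1 X).filter (fun n => n ≡ c [MOD q] ∧ ∀ p ∈ P0, ¬ Z p (n % p))).filter (fun m => ∀ p ∈ P1, ¬ Z p (m % p)), (1 : ℝ) =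
      ((((Icc 1 X).filter (fun n : ℕ => n ≡ c [MOD q] ∧ ∀ p ∈ P, ¬ Z p (n % p))).card : ℕ) : ℝ) := by
    rw [sum_const, nsmul_eq_mul, mul_one, filter_filter]
    congr 2
    apply filter_congr
    intro n _
    conv_rhs => rw [hPu]
    constructor
    · rintro ⟨⟨h4, h5⟩, h6⟩
      refine ⟨h4, fun p hp => ?_⟩
      rcases mem_union.1 hp with h | h
      · exact h5 p h
      · exact h6 p h
    · intro h
      exact ⟨⟨h.1, fun p hp => h.2 p (mem_union_left _ hp)⟩, fun p hp => h.2 p (mem_union_right _ hp)⟩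
  have f2 : A0 * ∏ p ∈ P1, (1 - (om p : ℝ) / p) = X / q * V := by
    rw [hV, hA0]; ring
  rw [f2] at key
  have key2 : |((((Icc 1 X).filter (fun n : ℕ => n ≡ c [MOD q] ∧ ∀ p ∈ P, ¬ Z p (n % p))).card : ℕ) : ℝ) - X / q * V| ≤
      (1 / 2 : ℝ) ^ b * (X / q * V) + ((J : ℝ) + 2) *
        ∑ T ∈ P1.powerset.filter (fun T : Finset ℕ => ∏ p ∈ T, p ≤ (2 ^ 2 ^ J) ^ (C0 * b)), ((K0 : ℝ) * D) := by
    rw [← f1]
    exact key
  refine key2.trans ?_
  have hVge : 1 / ((k.factorial : ℝ) * (y : ℝ) ^ k) ≤ V := VZ_ge (by omega) om hP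
  have hV1 : 0 ≤ V := le_trans (by positivity) hVge
  have hM0 : 0 ≤ (X : ℝ) / q * V := by positivity
  have hcard : (P1.powerset.filter (fun T : Finset ℕ => ∏ p ∈ T, p ≤ D)).card ≤ D := by
    calc _ ≤ (Icc 1 D).card := by
          apply card_le_card_of_injOn (fun T : Finset ℕ => ∏ p ∈ T, p)
          · intro T hT
            rw [mem_coe, mem_filter, mem_powerset] at hT
            have h5 : 1 ≤ ∏ p ∈ T, p := Nat.pos_of_ne_zero (prod_ne_zero_iff.2 fun p hp => (hPp1 p (hT.1 hp)).1.ne_zero)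
            exact mem_coe.2 (mem_Icc.2 ⟨h5, hT.2⟩)
          · intro S hS S' hS' h
            rw [mem_coe, mem_filter, mem_powerset] at hS hS'
            have hSp : ∀ p ∈ S, p.Prime := fun p hp => (hPp1 p (hS.1 hp)).1
            have hSp' : ∀ p ∈ S', p.Prime := fun p hp => (hPp1 p (hS'.1 hp)).1
            simp only at h
            ext p
            constructor
            · intro hp
              have h1 : p ∣ ∏ p ∈ S', p := h ▸ dvd_prod_of_mem _ hp
              obtain ⟨p', hp', hd⟩ := (Nat.Prime.prime (hSp p hp)).exists_mem_finset_dvd h1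
              rw [Nat.prime_dvd_prime_iff_eq (hSp p hp) (hSp' p' hp')] at hd
              exact hd ▸ hp'
            · intro hp
              have h1 : p ∣ ∏ p ∈ S, p := h ▸ dvd_prod_of_mem _ hp
              obtain ⟨p', hp', hd⟩ := (Nat.Prime.prime (hSp' p hp)).exists_mem_finset_dvd h1
              rw [Nat.prime_dvd_prime_iff_eq (hSp' p hp) (hSp p' hp')] at hd
              exact hd ▸ hp'
      _ = D := by simp
  -- the error
  have hmain : ((J : ℝ) + 2) * ∑ T ∈ P1.powerset.filter (fun T : Finset ℕ => ∏ p ∈ T, p ≤ (2 ^ 2 ^ J) ^ (C0 * b)), ((K0 : ℝ) * D) ≤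
      ε / 2 * (X / q * V) := by
    rw [sum_const, nsmul_eq_mul]
    have hy0 : (0 : ℝ) < y := by
      have : 0 < y := by omega
      exact_mod_cast this
    have g1 : (J : ℝ) + 2 ≤ 2 * y := by
      have := JJ_small y (by omega)
      exact_mod_cast this
    have g2 : (D : ℝ) ≤ (y : ℝ) ^ (2 * (C0 * b)) := by
      have h1 : D ≤ y ^ (2 * (C0 * b)) := by
        rw [hD, pow_mul y 2 (C0 * b)]
        exact Nat.pow_le_pow_left hYy _
      exact_mod_cast h1
    have g3 : ((P1.powerset.filter (fun T : Finset ℕ => ∏ p ∈ T, p ≤ (2 ^ 2 ^ J) ^ (C0 * b))).card : ℝ) ≤ D := by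
      have h1 := hcard
      exact_mod_cast h1
    have g4 : (y : ℝ) ^ (4 * (C0 * b) + 3 + k) ≤ X / q := by
      rw [le_div_iff₀ hq0, mul_comm]
      exact_mod_cast hX
    have g5 : (K0 : ℝ) * k.factorial ≤ y := by exact_mod_cast hyK
    have g6 : 4 / ε ≤ y := by
      have h1 : ((e0 : ℕ) : ℝ) ≤ y := by
        have : e0 ≤ y := by omega
        exact_mod_cast this
      linarith
    have hD0 : (0 : ℝ) ≤ D := Nat.cast_nonneg _
    have hkf : (0 : ℝ) < k.factorial := by exact_mod_cast Nat.factorial_pos k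
    have hK00 : (0 : ℝ) ≤ K0 := Nat.cast_nonneg _
    have s1 : ((J : ℝ) + 2) * (((P1.powerset.filter (fun T : Finset ℕ => ∏ p ∈ T, p ≤ (2 ^ 2 ^ J) ^ (C0 * b))).card : ℝ) * ((K0 : ℝ) * D)) ≤
        2 * y * ((y : ℝ) ^ (2 * (C0 * b)) * (K0 * (y : ℝ) ^ (2 * (C0 * b)))) := by
      apply mul_le_mul g1 _ (mul_nonneg (Nat.cast_nonneg _) (mul_nonneg hK00 hD0)) (by positivity)
      apply mul_le_mul (g3.trans g2) _ (mul_nonneg hK00 hD0) (by positivity)
      exact mul_le_mul_of_nonneg_left g2 hK00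
    have s2 : (y : ℝ) ^ (4 * (C0 * b) + 3) / k.factorial ≤ X / q * V := by
      have h1 : (y : ℝ) ^ (4 * (C0 * b) + 3) / k.factorial =
          (y : ℝ) ^ (4 * (C0 * b) + 3 + k) * (1 / ((k.factorial : ℝ) * (y : ℝ) ^ k)) := by
        rw [pow_add _ _ k]
        field_simp
      rw [h1]
      exact mul_le_mul g4 hVge (by positivity) (by positivity)
    have s3 : 2 * y * ((y : ℝ) ^ (2 * (C0 * b)) * (K0 * (y : ℝ) ^ (2 * (C0 * b)))) ≤
        ε / 2 * ((y : ℝ) ^ (4 * (C0 * b) + 3) / k.factorial) := by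
      have h1 : (y : ℝ) ^ (4 * (C0 * b) + 3) = (y : ℝ) ^ (2 * (C0 * b)) * (y : ℝ) ^ (2 * (C0 * b)) * y * (y * y) := by
        rw [show 4 * (C0 * b) + 3 = 2 * (C0 * b) + 2 * (C0 * b) + 1 + (1 + 1) by ring, pow_add, pow_add, pow_add, pow_add, pow_one]
      rw [h1, mul_div_assoc']
      rw [le_div_iff₀ hkf]
      have h2 : 4 ≤ ε * y := by
        rw [div_le_iff₀ hε] at g6
        linarith
      have h3 : 4 * ((K0 : ℝ) * k.factorial) ≤ (ε * y) * y := mul_le_mul h2 g5 (by positivity) (by positivity)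
      have hB : 0 ≤ (y : ℝ) ^ (2 * (C0 * b)) * (y : ℝ) ^ (2 * (C0 * b)) * y := by positivity
      calc 2 * y * ((y : ℝ) ^ (2 * (C0 * b)) * (K0 * (y : ℝ) ^ (2 * (C0 * b)))) * k.factorial =
          ((y : ℝ) ^ (2 * (C0 * b)) * (y : ℝ) ^ (2 * (C0 * b)) * y) * (1 / 2 * (4 * ((K0 : ℝ) * k.factorial))) := by ring
        _ ≤ ((y : ℝ) ^ (2 * (C0 * b)) * (y : ℝ) ^ (2 * (C0 * b)) * y) * (1 / 2 * ((ε * y) * y)) := by
            apply mul_le_mul_of_nonneg_left _ hB
            linarith
        _ = _ := by ring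
    exact (s1.trans s3).trans (mul_le_mul_of_nonneg_left s2 (by positivity))
  have h9 : (1 / 2 : ℝ) ^ b * (X / q * V) ≤ ε / 2 * (X / q * V) := mul_le_mul_of_nonneg_right hbε hM0
  linarith

end Pool.Agent.H537.TR
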