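import Pool.Agent.H537.TR.Par
import Pool.Agent.H537.TR.Sieve
import Pool.Agent.H537.FG.Root

/-! Translates of a polynomial, the sifted values, and the fundamental lemma for them. -/

set_option autoImplicit false
set_option maxHeartbeats 4000000

open Finset Polynomial Filter

namespace Pool.Agent.H537.TR

open Pool.Agent.H537.FG Pool.Agent.N914.MR Pool.Agent.H537.FT Pool.Agent.H537.GP

theorem card_shift (P : ℕ → Prop) [DecidablePred P] (m Y : ℕ) (hP : ∀ n, P (n + m) ↔ P n) :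
    ((range m).filter (fun n => P (n + Y))).card = ((range m).filter P).card := by
  have hper : Function.Periodic P m := fun n => propext (hP n)
  have h1 := Nat.filter_Ico_card_eq_of_periodic Y m P hper
  rw [Nat.count_eq_card_filter_range] at h1
  rw [← h1]
  apply card_bij (fun n _ => n + Y)
  · intro n hn
    rw [mem_filter, mem_range] at hn
    rw [mem_filter, mem_Ico]
    exact ⟨⟨by omega, by omega⟩, hn.2⟩
  · intro n _ n' _ h
    omega
  · intro n hn
    rw [mem_filter, mem_Ico] at hn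
    refine ⟨n - Y, ?_, by omega⟩
    rw [mem_filter, mem_range]
    have : n - Y + Y = n := by omega
    rw [this]
    exact ⟨by omega, hn.2⟩

/-- the polynomial `G (x + Y)` -/
noncomputable def shift (G : ℤ[X]) (Y : ℕ) : ℤ[X] := G.comp (X + C (Y : ℤ))

theorem shift_eval (G : ℤ[X]) (Y a : ℕ) : (shift G Y).eval (a : ℤ) = G.eval ((a + Y : ℕ) : ℤ) := by
  unfold shift
  rw [eval_comp, eval_add, eval_X, eval_C]
  push_cast
  rfl

theorem shift_deg (G : ℤ[X]) (Y : ℕ) : (shift G Y).natDegree = G.natDegree := by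
  unfold shift
  rw [natDegree_comp, natDegree_X_add_C, mul_one]

theorem omG_shift (G : ℤ[X]) (Y p : ℕ) : omG (shift G Y) p = omG G p := by
  classical
  unfold omG
  simp only [shift_eval]
  apply card_shift (fun n : ℕ => (p : ℤ) ∣ G.eval (n : ℤ)) p Y
  intro n
  exact dvd_congr G (by unfold Nat.ModEq; simp)

theorem gcd_congr (G : ℤ[X]) {a b q : ℕ} (h : a ≡ b [MOD q]) :
    Int.gcd (G.eval (a : ℤ)) q = Int.gcd (G.eval (b : ℤ)) q := by
  have h1 : ((a : ℤ) - b) ∣ G.eval (a : ℤ) - G.eval (b : ℤ) := sub_dvd_eval_sub _ _ _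
  have h2 : (q : ℤ) ∣ (a : ℤ) - b := by
    have := (Nat.modEq_iff_dvd.mp h.symm)
    exact this
  obtain ⟨t, ht⟩ := h2.trans h1
  have h3 : G.eval (a : ℤ) = G.eval (b : ℤ) + q * t := by linarith
  rw [h3, Int.gcd_comm, Int.gcd_comm (eval (b : ℤ) G)]
  exact Int.gcd_add_mul_left_right (q : ℤ) (eval (b : ℤ) G) t

theorem rhoG_shift (G : ℤ[X]) (Y q : ℕ) : rhoG (shift G Y) q = rhoG G q := by
  classical
  unfold rhoG
  simp only [shift_eval]
  apply card_shift (fun n : ℕ => Int.gcd (G.eval (n : ℤ)) q = 1) q Y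
  intro n
  rw [gcd_congr G (show n + q ≡ n [MOD q] by unfold Nat.ModEq; simp)]

/-- no prime up to `z` divides `G n` -/
def Sifted (G : ℤ[X]) (z n : ℕ) : Prop := ∀ p : ℕ, p.Prime → p ≤ z → ¬ (p : ℤ) ∣ G.eval (n : ℤ)

/-- the density of these `n` -/
noncomputable def dens (G : ℤ[X]) (z : ℕ) : ℝ := ∏ p ∈ (Icc 1 z).filter Nat.Prime, (1 - (omG G p : ℝ) / p)

theorem dens_shift (G : ℤ[X]) (Y z : ℕ) : dens (shift G Y) z = dens G z := by
  unfold dens
  simp only [omG_shift]

theorem dens_pos {G : ℤ[X]} (hadm : ∀ p : ℕ, p.Prime → omG G p < p) (z : ℕ) : 0 < dens G z := by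
  unfold dens
  apply prod_pos
  intro p hp
  rw [mem_filter] at hp
  have h1 : (omG G p : ℝ) < p := by exact_mod_cast hadm p hp.2
  have hp0 : (0 : ℝ) < p := by exact_mod_cast hp.2.pos
  have : (omG G p : ℝ) / p < 1 := by
    rw [div_lt_one hp0]
    exact h1
  linarith

open Classical in
/-- the weight of the sifted `n` -/
noncomputable def Wz (G : ℤ[X]) (z n : ℕ) : ℝ := if Sifted G z n then 1 else 0

open Classical in
/-- small moduli -/
theorem small_mod (k : ℕ) {η : ℝ} (hη : 0 < η) : ∃ u z0 : ℕ, 1 ≤ u ∧ 2 ≤ z0 ∧ ∀ (G : ℤ[X]) (z q a y : ℕ),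
    G.natDegree ≤ k → (∀ p : ℕ, p.Prime → omG G p < p) → z0 ≤ z → 1 ≤ q → q ≤ z →
    Int.gcd (G.eval (a : ℤ)) q = 1 → q * z ^ u ≤ y →
    |cntW (Wz G z) y a q - dens G z * (1 / (rhoG G q : ℝ)) * y| ≤ η * (dens G z * (1 / (rhoG G q : ℝ)) * y) := by
  obtain ⟨u, z0, hu, hz0, hF⟩ := fundG k hη
  refine ⟨u, z0, hu, hz0, fun G z q a y hdeg hadm hz hq hqz hgcd hy => ?_⟩
  set P : Finset ℕ := ((Icc 1 z).filter Nat.Prime).filter (fun p => ¬ p ∣ q) with hP
  have hPm : ∀ p ∈ P, p.Prime ∧ p ≤ z ∧ ¬ p ∣ q := by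
    intro p hp
    rw [hP, mem_filter, mem_filter, mem_Icc] at hp
    exact ⟨hp.1.2, hp.1.1.2, hp.2⟩
  have h1 := hF z hz q a y hq hy P (fun p b => (p : ℤ) ∣ G.eval (b : ℤ)) (omG G)
    (fun p hp => ⟨(hPm p hp).1, (hPm p hp).2.1, hadm p (hPm p hp).1, (omG_le (hPm p hp).1 (hadm p (hPm p hp).1)).trans hdeg⟩)
    (fun p hp => (hPm p hp).2.2) (fun p _ => by
      unfold omG
      apply congrArg card
      ext n
      simp only [mem_filter])
  have h2 : ((((Icc 1 y).filter (fun n : ℕ => n ≡ a [MOD q] ∧ ∀ p ∈ P, ¬ (p : ℤ) ∣ G.eval ((n % p : ℕ) : ℤ))).card : ℕ) : ℝ) =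
      cntW (Wz G z) y a q := by
    unfold cntW Wz
    rw [← sum_filter, sum_const, nsmul_eq_mul, mul_one, filter_filter]
    congr 2
    apply filter_congr
    intro n _
    constructor
    · rintro ⟨h3, h4⟩
      refine ⟨h3, fun p hp hpz hd => ?_⟩
      by_cases hpq : p ∣ q
      · have h5 : (p : ℤ) ∣ G.eval (a : ℤ) := (dvd_congr G (h3.of_dvd hpq)).mp hd
        have h6 : p ∣ Int.gcd (G.eval (a : ℤ)) q := by
          have h7 := Int.dvd_coe_gcd h5 (Int.natCast_dvd_natCast.mpr hpq)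
          exact_mod_cast h7
        rw [hgcd] at h6
        exact hp.one_lt.ne' (Nat.dvd_one.mp h6)
      · have h5 : p ∈ P := by
          rw [hP, mem_filter, mem_filter, mem_Icc]
          exact ⟨⟨⟨hp.one_lt.le, hpz⟩, hp⟩, hpq⟩
        exact h4 p h5 ((dvd_congr G (Nat.mod_modEq n p)).mpr hd)
    · rintro ⟨h3, h4⟩
      refine ⟨h3, fun p hp hd => ?_⟩
      exact h4 p (hPm p hp).1 (hPm p hp).2.1 ((dvd_congr G (Nat.mod_modEq n p)).mp hd)
  have h3 : (y : ℝ) / q * ∏ p ∈ P, (1 - (omG G p : ℝ) / p) = dens G z * (1 / (rhoG G q : ℝ)) * y := by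
    have e1 : dens G z = (∏ p ∈ P, (1 - (omG G p : ℝ) / p)) * ∏ p ∈ q.primeFactors, (1 - (omG G p : ℝ) / p) := by
      unfold dens
      rw [← prod_filter_mul_prod_filter_not ((Icc 1 z).filter Nat.Prime) (fun p => ¬ p ∣ q)]
      congr 1
      apply prod_congr _ fun _ _ => rfl
      ext p
      rw [mem_filter, mem_filter, mem_Icc, Nat.mem_primeFactors, not_not]
      constructor
      · rintro ⟨⟨_, h5⟩, h6⟩
        exact ⟨h5, h6, by omega⟩
      · rintro ⟨h5, h6, _⟩
        exact ⟨⟨⟨h5.one_lt.le, (Nat.le_of_dvd hq h6).trans hqz⟩, h5⟩, h6⟩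
    have e2 : ∏ p ∈ q.primeFactors, (1 - (omG G p : ℝ) / p) ≠ 0 := by
      apply (prod_pos _).ne'
      intro p hp
      have hpp := Nat.prime_of_mem_primeFactors hp
      have h5 : (omG G p : ℝ) < p := by exact_mod_cast hadm p hpp
      have hp0 : (0 : ℝ) < p := by exact_mod_cast hpp.pos
      have : (omG G p : ℝ) / p < 1 := by
        rw [div_lt_one hp0]
        exact h5
      linarith
    have hq0 : (q : ℝ) ≠ 0 := by
      have : q ≠ 0 := by omega
      exact_mod_cast this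
    rw [rhoG_eq G hq, e1]
    field_simp
  rw [h3] at h1
  rw [← h2]
  refine le_trans (le_of_eq ?_) h1
  apply congrArg
  apply congrArg₂ _ _ rfl
  apply congrArg
  apply congrArg card
  ext n
  simp only [mem_filter]

end Pool.Agent.H537.TR
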