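import Pool.Agent.H537.TR.Shift
import Pool.Agent.H537.GP.Almost
import Pool.Agent.H537.FG.Choice

/-! Limits to the equidistribution of the sifted values: one parity, and the final form. -/

set_option autoImplicit false
set_option maxHeartbeats 4000000

open Finset Polynomial Filter

namespace Pool.Agent.H537.TR

open Pool.Agent.H537.FG Pool.Agent.N914.MR Pool.Agent.H537.FT Pool.Agent.H537.GP

open Pool.Agent.X50.LG (HasRoot)

/-- the moduli in `(Q, 2Q]` without a common prime factor `≤ z` with the value at `a` -/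
noncomputable def MQ (G : ℤ[X]) (z Q a : ℕ) : Finset ℕ := by
  classical
  exact (Ioc Q (2 * Q)).filter (fun q : ℕ => ∀ p : ℕ, p.Prime → p ≤ z → p ∣ q → ¬ (p : ℤ) ∣ G.eval (a : ℤ))

open Classical in
theorem one_parity (G f : ℤ[X]) (hf : Irreducible (f.map (Int.castRingHom ℚ))) (hfG : f ∣ G)
    (hadm : ∀ p : ℕ, p.Prime → omG G p < p) (B : ℝ) (hB : 0 < B) (K : ℕ) (hK2 : 2 ≤ K) (hBK : B < K) :
    ∃ η₀ : ℝ, 0 < η₀ ∧ ∀ η : ℝ, 0 < η → η ≤ η₀ → ∃ u : ℕ, ∀ D : ℝ, 0 ≤ D → ∀ ε : ℝ, 0 < ε →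
      ∀ᶠ N : ℕ in atTop, ∀ Y z : ℕ, (Y : ℝ) ≤ (N : ℝ) ^ D → Real.log N ^ (B + 2) ≤ z → z ^ u ≤ N →
      ∃ a : ℕ, 1 ≤ a ∧ (a : ℝ) ≤ (N : ℝ) ^ ε ∧
        0 < ∑ q ∈ MQ (shift G Y) z ⌊(N : ℝ) / Real.log N ^ B⌋₊ a, dens G z * (1 / (rhoG G q : ℝ)) * N ∧
        η * ∑ q ∈ MQ (shift G Y) z ⌊(N : ℝ) / Real.log N ^ B⌋₊ a, dens G z * (1 / (rhoG G q : ℝ)) * N ≤
          (-1) ^ K * (∑ q ∈ MQ (shift G Y) z ⌊(N : ℝ) / Real.log N ^ B⌋₊ a, cntW (Wz (shift G Y) z) N a q -
            ∑ q ∈ MQ (shift G Y) z ⌊(N : ℝ) / Real.log N ^ B⌋₊ a, dens G z * (1 / (rhoG G q : ℝ)) * N) := by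
  have hK0 : (0 : ℝ) < K := by
    have : 0 < K := by omega
    exact_mod_cast this
  obtain ⟨c0, hc0, w0, hroot⟩ := root_range f hf (θ := 1 / (2 * (K : ℝ))) (by positivity)
  obtain ⟨η₀, hη₀, hpar⟩ := parityR G.natDegree c0 hc0 B hB K hK2 hBK
  refine ⟨η₀, hη₀, fun η hη hηle => ?_⟩
  obtain ⟨u1, z0, hu1, hz0, hsm⟩ := small_mod G.natDegree hη
  refine ⟨u1 + 2, fun D hD ε hε => ?_⟩
  obtain ⟨Cv, hCv⟩ := value_le G
  set d := G.natDegree with hd
  set E : ℝ := (D + 2) * d + 1 with hE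
  have hE0 : 0 < E := by positivity
  have hlogX : Tendsto (fun X : ℕ => Real.log (X : ℝ)) atTop atTop :=
    Real.tendsto_log_atTop.comp tendsto_natCast_atTop_atTop
  have hL1 := hlogX.eventually (parL B hB K hK2 1 1 w0 one_pos one_pos)
  filter_upwards [hpar η hη hηle E hE0 ε hε, hL1, hlogX.eventually_ge_atTop (z0 + 1 : ℝ), eventually_ge_atTop (Cv + 3)]
    with N h1 h2 h3 h4
  intro Y z hY hz hzN
  set L := Real.log (N : ℝ) with hL
  have hL0 : 0 < L := by
    have : (0 : ℝ) ≤ z0 := Nat.cast_nonneg _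
    linarith
  have hL1' : 1 ≤ L := by
    have : (0 : ℝ) ≤ z0 := Nat.cast_nonneg _
    linarith
  have hN0 : (0 : ℝ) < N := by
    have : 0 < N := by omega
    exact_mod_cast this
  have hN1 : (1 : ℝ) ≤ N := by
    have : 1 ≤ N := by omega
    exact_mod_cast this
  have hN3 : (3 : ℝ) ≤ N := by
    have : 3 ≤ N := by omega
    exact_mod_cast this
  have hadm' : ∀ p : ℕ, p.Prime → omG (shift G Y) p < p := fun p hp => by
    rw [omG_shift]
    exact hadm p hp
  have hLz1 : L ^ (B + 1) ≤ z := le_trans (Real.rpow_le_rpow_of_exponent_le hL1' (by linarith)) hz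
  have hLz : L ≤ z := by
    refine le_trans ?_ hLz1
    have := Real.rpow_le_rpow_of_exponent_le hL1' (show (1 : ℝ) ≤ B + 1 by linarith)
    rwa [Real.rpow_one] at this
  have hz0' : z0 ≤ z := by
    have : (z0 : ℝ) ≤ z := by linarith
    exact_mod_cast this
  have hzpos : (0 : ℝ) < z := by linarith
  obtain ⟨a, ha1, ha2, ha3, hQ1, ha4⟩ := h1 (shift G Y) N z (Wz (shift G Y) z) (fun y => (y : ℝ)) 1 (dens G z)
    (by rw [shift_deg])
    (by
      intro a haN
      rw [shift_eval]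
      have e1 := hCv (a + Y) (N + Y) (by omega) (by omega)
      have e2 : ((G.eval ((a + Y : ℕ) : ℤ)).natAbs : ℝ) ≤ Cv * ((N + Y : ℕ) : ℝ) ^ d := by
        rw [Nat.cast_natAbs]
        exact_mod_cast e1
      have e4 : ((N + Y : ℕ) : ℝ) ≤ (N : ℝ) ^ (D + 2) := by
        push_cast
        have e5 : (1 : ℝ) ≤ (N : ℝ) ^ D := Real.one_le_rpow hN1 hD
        have e6 : (N : ℝ) ^ (D + 2) = (N : ℝ) ^ D * ((N : ℝ) * N) := by
          rw [Real.rpow_add hN0, show (2 : ℝ) = ((2 : ℕ) : ℝ) by norm_num, Real.rpow_natCast, sq]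
        rw [e6]
        have e7 : (N : ℝ) + 1 ≤ (N : ℝ) * N := by nlinarith
        nlinarith
      have e8 : (Cv : ℝ) ≤ N := by
        have : Cv ≤ N := by omega
        exact_mod_cast this
      calc ((G.eval ((a + Y : ℕ) : ℤ)).natAbs : ℝ) ≤ Cv * ((N + Y : ℕ) : ℝ) ^ d := e2
        _ ≤ N * ((N : ℝ) ^ (D + 2)) ^ d := by
            apply mul_le_mul e8 (pow_le_pow_left₀ (by positivity) e4 _) (by positivity) hN0.le
        _ = (N : ℝ) ^ E := by
            rw [hE, ← Real.rpow_natCast, ← Real.rpow_mul hN0.le, Real.rpow_add hN0, Real.rpow_one]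
            ring)
    hadm'
    (by
      obtain ⟨g1, g2, g3, g4, g5, g6, g7⟩ := h2
      have hw : w0 ≤ wF B K L := by exact_mod_cast g1
      refine (hroot (wF B K L) (zF B K L) hw g3).trans ?_
      apply sum_le_sum_of_subset_of_nonneg
      · intro p hp
        rw [mem_filter] at hp ⊢
        refine ⟨hp.1, hp.2.1, ?_⟩
        obtain ⟨r, hr⟩ := root_nat hp.2.1 hp.2.2
        refine ⟨r + (p - 1) * Y, ?_⟩
        rw [shift_eval]
        have e1 : r + (p - 1) * Y + Y = r + p * Y := by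
          have := hp.2.1.pos
          obtain ⟨m, rfl⟩ : ∃ m, p = m + 1 := ⟨p - 1, by omega⟩
          simp only [Nat.add_sub_cancel]
          ring
        rw [e1]
        have e2 : r + p * Y ≡ r [MOD p] := by
          unfold Nat.ModEq
          simp
        exact (dvd_congr G e2).mpr (dvd_trans hr (Polynomial.eval_dvd hfG))
      · intro p _ _
        positivity)
    (by linarith) le_rfl one_pos (dens_pos hadm z)
    (by
      unfold SF
      exact Nat.floor_le_of_le hz)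
    (by
      intro n hn p hp hd
      unfold Wz at hn
      rw [ne_eq, ite_eq_right_iff, Classical.not_imp] at hn
      by_contra hc
      exact hn.1 p hp (by omega) hd)
    (by
      intro y _ _
      rw [one_mul, sub_self, abs_zero]
      positivity)
    (by
      intro q a y hq hqL hg hy1 hy2
      have e1 := hsm (shift G Y) z q a y (by rw [shift_deg]) hadm' hz0' hq
        (by exact_mod_cast hqL.trans hLz1) hg (by
          have e2 : (q : ℝ) * (z : ℝ) ^ u1 ≤ y := by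
            refine le_trans ?_ hy1
            have hLB : 0 < L ^ (B + 1) := Real.rpow_pos_of_pos hL0 _
            rw [le_div_iff₀ hLB]
            calc (q : ℝ) * (z : ℝ) ^ u1 * L ^ (B + 1) ≤ z * (z : ℝ) ^ u1 * z := by
                  apply mul_le_mul _ hLz1 hLB.le (by positivity)
                  exact mul_le_mul_of_nonneg_right (hqL.trans hLz1) (by positivity)
              _ = (z : ℝ) ^ (u1 + 2) := by ring
              _ ≤ N := by exact_mod_cast hzN
          exact_mod_cast e2)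
      rw [dens_shift, rhoG_shift] at e1
      rw [rhoG_shift]
      exact e1)
  refine ⟨a, ha1, ha2, ?_, ?_⟩
  · set Q := ⌊(N : ℝ) / L ^ B⌋₊ with hQd
    obtain ⟨j, hj1, hj2⟩ : ∃ j : ℕ, Q < 2 ^ j ∧ 2 ^ j ≤ 2 * Q := by
      refine ⟨Nat.log 2 Q + 1, Nat.lt_pow_succ_log_self (by norm_num) Q, ?_⟩
      rw [pow_succ]
      have := Nat.pow_log_le_self 2 (by omega : Q ≠ 0)
      omega
    have hmem : 2 ^ j ∈ MQ (shift G Y) z Q a := by
      unfold MQ
      rw [mem_filter, mem_Ioc]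
      refine ⟨⟨hj1, hj2⟩, fun p hp _ hpd => ?_⟩
      have hp2 : p = 2 := (Nat.prime_dvd_prime_iff_eq hp Nat.prime_two).mp (hp.dvd_of_dvd_pow hpd)
      rw [hp2]
      exact_mod_cast ha3
    refine sum_pos (fun q hq => ?_) ⟨2 ^ j, hmem⟩
    unfold MQ at hq
    rw [mem_filter, mem_Ioc] at hq
    have hrpos : (0 : ℝ) < rhoG G q := rhoG_pos hadm (by omega : 1 ≤ q)
    have := dens_pos hadm z
    positivity
  · simp only [rhoG_shift] at ha4
    unfold MQ
    convert ha4 using 1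

end Pool.Agent.H537.TR
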