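import Pool.Agent.H537.TR.Fin

/-! The final form: the classes with too many and the classes with too few sifted values. -/

set_option autoImplicit false
set_option maxHeartbeats 4000000

open Finset Polynomial Filter

namespace Pool.Agent.H537.TR

open Pool.Agent.H537.FG Pool.Agent.N914.MR Pool.Agent.H537.FT Pool.Agent.H537.GP

theorem irr_factor (G : ℤ[X]) (hG : 0 < G.natDegree) :
    ∃ f : ℤ[X], Irreducible (f.map (Int.castRingHom ℚ)) ∧ f ∣ G := by
  have hprim := G.isPrimitive_primPart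
  have hdeg : 0 < G.primPart.natDegree := by rwa [natDegree_primPart]
  have h0 : G.primPart ≠ 0 := by
    intro h
    rw [h, natDegree_zero] at hdeg
    omega
  have hu : ¬ IsUnit G.primPart := by
    intro h
    have := natDegree_eq_zero_of_isUnit h
    omega
  obtain ⟨f, hf, hfd⟩ := WfDvdMonoid.exists_irreducible_factor hu h0
  have hfp := isPrimitive_of_dvd hprim hfd
  exact ⟨f, (IsPrimitive.Int.irreducible_iff_irreducible_map_cast hfp).mp hf, hfd.trans G.primPart_dvd⟩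

/-- the large prime factors of a modulus matter little -/
theorem R_bound (G : ℤ[X]) (hadm : ∀ p : ℕ, p.Prime → omG G p < p) {z q : ℕ} (hq : 1 ≤ q)
    (hz : G.natDegree + 1 ≤ z) :
    1 - (G.natDegree : ℝ) * (Nat.log 2 q) / z ≤ ∏ p ∈ q.primeFactors.filter (fun p => z < p), (1 - (omG G p : ℝ) / p) := by
  set S := q.primeFactors.filter (fun p => z < p) with hS
  set k := G.natDegree with hk
  have hz0 : (0 : ℝ) < z := by
    have : 0 < z := by omega
    exact_mod_cast this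
  have hkz : (k : ℝ) / z ≤ 1 := by
    rw [div_le_one hz0]
    have : k ≤ z := by omega
    exact_mod_cast this
  have hcard : S.card ≤ Nat.log 2 q := by
    apply Nat.le_log_of_pow_le (by norm_num)
    calc 2 ^ S.card = ∏ _p ∈ S, 2 := by rw [prod_const]
      _ ≤ ∏ p ∈ S, p := prod_le_prod' fun p hp => (Nat.prime_of_mem_primeFactors (mem_filter.mp hp).1).two_le
      _ ≤ q := Nat.le_of_dvd (by omega) ((prod_dvd_prod_of_subset _ _ _ (filter_subset _ _)).trans (Nat.prod_primeFactors_dvd q))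
  have h1 : ∏ _p ∈ S, (1 - (k : ℝ) / z) ≤ ∏ p ∈ S, (1 - (omG G p : ℝ) / p) := by
    apply Finset.prod_le_prod
    · intro p _
      linarith
    · intro p hp
      rw [hS, mem_filter] at hp
      have hpp := Nat.prime_of_mem_primeFactors hp.1
      have h2 : (omG G p : ℝ) ≤ k := by exact_mod_cast omG_le hpp (hadm p hpp)
      have h3 : (z : ℝ) ≤ p := by exact_mod_cast hp.2.le
      have : (omG G p : ℝ) / p ≤ (k : ℝ) / z := div_le_div₀ (Nat.cast_nonneg _) h2 hz0 h3
      linarith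
  refine le_trans ?_ h1
  rw [prod_const]
  have h2 := one_add_mul_le_pow (a := -((k : ℝ) / z)) (by linarith) S.card
  have h3 : (S.card : ℝ) * (k / z) ≤ (k : ℝ) * (Nat.log 2 q) / z := by
    have : (S.card : ℝ) ≤ Nat.log 2 q := by exact_mod_cast hcard
    calc (S.card : ℝ) * (k / z) ≤ (Nat.log 2 q) * (k / z) := mul_le_mul_of_nonneg_right this (by positivity)
      _ = _ := by ring
  have h4 : (1 + -((k : ℝ) / z)) ^ S.card = (1 - (k : ℝ) / z) ^ S.card := by ring
  rw [h4] at h2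
  linarith

open Classical in
/-- the number of the sifted `n` in `(Y, Y + N]`, `n ≡ a (mod q)` -/
noncomputable def cntS (G : ℤ[X]) (z Y N q a : ℕ) : ℕ :=
  ((Ioc Y (Y + N)).filter (fun n : ℕ => n ≡ a [MOD q] ∧ ∀ p : ℕ, p.Prime → p ≤ z → ¬ (p : ℤ) ∣ G.eval (n : ℤ))).card

/-- the expected number -/
noncomputable def expS (G : ℤ[X]) (z N q : ℕ) : ℝ :=
  (N : ℝ) / q * ∏ p ∈ (Icc 1 z).filter (fun p : ℕ => p.Prime ∧ ¬ p ∣ q), (1 - (omG G p : ℝ) / p)

open Classical in
theorem cntS_eq (G : ℤ[X]) (z Y N q a : ℕ) : cntW (Wz (shift G Y) z) N a q = cntS G z Y N q (a + Y) := by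
  unfold cntW Wz cntS
  rw [← sum_filter, sum_const, nsmul_eq_mul, mul_one, filter_filter]
  congr 1
  apply card_bij (fun n _ => n + Y)
  · intro n hn
    rw [mem_filter, mem_Icc] at hn
    rw [mem_filter, mem_Ioc]
    refine ⟨⟨by omega, by omega⟩, hn.2.1.add_right Y, ?_⟩
    have := hn.2.2
    unfold Sifted at this
    simp only [shift_eval] at this
    exact this
  · intro n _ n' _ h
    omega
  · intro n hn
    rw [mem_filter, mem_Ioc] at hn
    refine ⟨n - Y, ?_, by omega⟩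
    have e : n - Y + Y = n := by omega
    rw [mem_filter, mem_Icc]
    refine ⟨⟨by omega, by omega⟩, ?_, ?_⟩
    · exact Nat.ModEq.add_right_cancel' Y (by rw [e]; exact hn.2.1)
    · unfold Sifted
      simp only [shift_eval, e]
      exact hn.2.2

theorem exp_split (G : ℤ[X]) (hadm : ∀ p : ℕ, p.Prime → omG G p < p) {z N q : ℕ} (hq : 1 ≤ q) :
    expS G z N q = (dens G z * (1 / (rhoG G q : ℝ)) * N) *
      ∏ p ∈ q.primeFactors.filter (fun p => z < p), (1 - (omG G p : ℝ) / p) := by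
  have hpos : ∀ p : ℕ, p.Prime → 0 < 1 - (omG G p : ℝ) / p := by
    intro p hp
    have h5 : (omG G p : ℝ) < p := by exact_mod_cast hadm p hp
    have hp0 : (0 : ℝ) < p := by exact_mod_cast hp.pos
    have : (omG G p : ℝ) / p < 1 := by
      rw [div_lt_one hp0]
      exact h5
    linarith
  have e1 : dens G z = (∏ p ∈ (Icc 1 z).filter (fun p : ℕ => p.Prime ∧ ¬ p ∣ q), (1 - (omG G p : ℝ) / p)) *
      ∏ p ∈ q.primeFactors.filter (fun p => ¬ z < p), (1 - (omG G p : ℝ) / p) := by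
    unfold dens
    rw [← prod_filter_mul_prod_filter_not ((Icc 1 z).filter Nat.Prime) (fun p => ¬ p ∣ q), filter_filter, filter_filter]
    congr 1
    apply prod_congr _ fun _ _ => rfl
    ext p
    rw [mem_filter, mem_filter, mem_Icc, Nat.mem_primeFactors, not_not]
    constructor
    · rintro ⟨h5, h6, h7⟩
      exact ⟨⟨h6, h7, by omega⟩, by omega⟩
    · rintro ⟨⟨h5, h6, _⟩, h7⟩
      exact ⟨⟨h5.one_lt.le, by omega⟩, h5, h6⟩
  have e2 : (rhoG G q : ℝ) = q * ((∏ p ∈ q.primeFactors.filter (fun p => z < p), (1 - (omG G p : ℝ) / p)) *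
      ∏ p ∈ q.primeFactors.filter (fun p => ¬ z < p), (1 - (omG G p : ℝ) / p)) := by
    rw [rhoG_eq G hq, prod_filter_mul_prod_filter_not]
  have e3 : ∏ p ∈ q.primeFactors.filter (fun p => z < p), (1 - (omG G p : ℝ) / p) ≠ 0 :=
    (prod_pos fun p hp => hpos p (Nat.prime_of_mem_primeFactors (mem_filter.mp hp).1)).ne'
  have e4 : ∏ p ∈ q.primeFactors.filter (fun p => ¬ z < p), (1 - (omG G p : ℝ) / p) ≠ 0 :=
    (prod_pos fun p hp => hpos p (Nat.prime_of_mem_primeFactors (mem_filter.mp hp).1)).ne'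
  have hq0 : (q : ℝ) ≠ 0 := by
    have : q ≠ 0 := by omega
    exact_mod_cast this
  unfold expS
  rw [e1, e2]
  field_simp

open Classical in
/-- the limits to the equidistribution -/
theorem main (G : ℤ[X]) (hG : 0 < G.natDegree) (hadm : ∀ p : ℕ, p.Prime → omG G p < p) (B : ℝ) (hB : 0 < B) :
    ∃ h : ℝ, 0 < h ∧ ∃ u : ℕ, ∀ D : ℝ, 0 ≤ D → ∀ ε : ℝ, 0 < ε →
      ∀ᶠ N : ℕ in atTop, ∀ Y z : ℕ, (Y : ℝ) ≤ (N : ℝ) ^ D → Real.log N ^ (B + 2) ≤ z → z ^ u ≤ N →
      (∃ a : ℕ, Y < a ∧ (a : ℝ) ≤ Y + (N : ℝ) ^ ε ∧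
        0 < ∑ q ∈ MQ G z ⌊(N : ℝ) / Real.log N ^ B⌋₊ a, expS G z N q ∧
        (1 + h) * ∑ q ∈ MQ G z ⌊(N : ℝ) / Real.log N ^ B⌋₊ a, expS G z N q ≤
          ∑ q ∈ MQ G z ⌊(N : ℝ) / Real.log N ^ B⌋₊ a, (cntS G z Y N q a : ℝ)) ∧
      (∃ a : ℕ, Y < a ∧ (a : ℝ) ≤ Y + (N : ℝ) ^ ε ∧
        0 < ∑ q ∈ MQ G z ⌊(N : ℝ) / Real.log N ^ B⌋₊ a, expS G z N q ∧
        ∑ q ∈ MQ G z ⌊(N : ℝ) / Real.log N ^ B⌋₊ a, (cntS G z Y N q a : ℝ) ≤
          (1 - h) * ∑ q ∈ MQ G z ⌊(N : ℝ) / Real.log N ^ B⌋₊ a, expS G z N q) := by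
  obtain ⟨f, hf, hfG⟩ := irr_factor G hG
  obtain ⟨K1, hK1⟩ := exists_nat_gt B
  obtain ⟨η1, hη1, h1⟩ := one_parity G f hf hfG hadm B hB (2 * (K1 + 1)) (by omega) (by push_cast; linarith)
  obtain ⟨η2, hη2, h2⟩ := one_parity G f hf hfG hadm B hB (2 * (K1 + 1) + 1) (by omega) (by push_cast; linarith)
  set η := min (min η1 η2) (1 / 2) with hηd
  have hη : 0 < η := lt_min (lt_min hη1 hη2) (by norm_num)
  have hηh : η ≤ 1 / 2 := min_le_right _ _
  obtain ⟨u1, hu1⟩ := h1 η hη ((min_le_left _ _).trans (min_le_left _ _))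
  obtain ⟨u2, hu2⟩ := h2 η hη ((min_le_left _ _).trans (min_le_right _ _))
  refine ⟨η / 2, by positivity, max u1 u2, fun D hD ε hε => ?_⟩
  set k := G.natDegree with hk
  have hlogX : Tendsto (fun X : ℕ => Real.log (X : ℝ)) atTop atTop :=
    Real.tendsto_log_atTop.comp tendsto_natCast_atTop_atTop
  filter_upwards [hu1 D hD ε hε, hu2 D hD ε hε, hlogX.eventually_ge_atTop ((k : ℝ) + 1 + 8 * k / η),
    eventually_ge_atTop 3] with N g1 g2 g3 g4
  intro Y z hY hz hzN
  set L := Real.log (N : ℝ) with hL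
  have hk1 : (1 : ℝ) ≤ k := by exact_mod_cast hG
  have h8 : 0 < 8 * k / η := by positivity
  have hL1 : 1 ≤ L := by linarith
  have hL0 : 0 < L := by linarith
  have hN0 : (0 : ℝ) < N := by
    have : 0 < N := by omega
    exact_mod_cast this
  have hLz2 : L * L ≤ z := by
    refine le_trans ?_ hz
    calc L * L = L ^ (2 : ℝ) := by
          rw [show (2 : ℝ) = ((2 : ℕ) : ℝ) by norm_num, Real.rpow_natCast, sq]
      _ ≤ L ^ (B + 2) := Real.rpow_le_rpow_of_exponent_le hL1 (by linarith)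
  have hz0 : (0 : ℝ) < z := by nlinarith
  have hLz : L ≤ z := by nlinarith
  have hkz : k + 1 ≤ z := by
    have : ((k + 1 : ℕ) : ℝ) ≤ z := by
      push_cast
      linarith
    exact_mod_cast this
  have hz1 : 1 ≤ z := by omega
  -- the comparison of the two expected numbers
  have hQN : ∀ q : ℕ, q ≤ 2 * ⌊(N : ℝ) / L ^ B⌋₊ → q ≤ 2 * N := by
    intro q hq
    refine hq.trans (Nat.mul_le_mul_left _ ?_)
    apply Nat.floor_le_of_le
    rw [div_le_iff₀ (Real.rpow_pos_of_pos hL0 _)]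
    exact le_mul_of_one_le_right hN0.le (Real.one_le_rpow hL1 hB.le)
  have hRup : ∀ q : ℕ, 1 ≤ q → expS G z N q ≤ dens G z * (1 / (rhoG G q : ℝ)) * N := by
    intro q hq
    rw [exp_split G hadm hq]
    apply mul_le_of_le_one_right
    · have := dens_pos hadm z
      have := rhoG_pos hadm hq
      positivity
    · apply prod_le_one
      · intro p hp
        have hpp := Nat.prime_of_mem_primeFactors (mem_filter.mp hp).1
        have h5 : (omG G p : ℝ) < p := by exact_mod_cast hadm p hpp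
        have hp0 : (0 : ℝ) < p := by exact_mod_cast hpp.pos
        have : (omG G p : ℝ) / p < 1 := by
          rw [div_lt_one hp0]
          exact h5
        linarith
      · intro p _
        have : 0 ≤ (omG G p : ℝ) / p := by positivity
        linarith
  have hRlo : ∀ q : ℕ, 1 ≤ q → q ≤ 2 * N → (1 - η / 2) * (dens G z * (1 / (rhoG G q : ℝ)) * N) ≤ expS G z N q := by
    intro q hq hqN
    have e1 : 0 < dens G z * (1 / (rhoG G q : ℝ)) * N := by
      have := dens_pos hadm z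
      have := rhoG_pos hadm hq
      positivity
    rw [exp_split G hadm hq, mul_comm]
    apply mul_le_mul_of_nonneg_left _ e1.le
    refine le_trans ?_ (R_bound G hadm hq (by omega))
    have e2 : (Nat.log 2 q : ℝ) ≤ 4 * L := by
      have h5 : (Nat.log 2 q : ℝ) * Real.log 2 ≤ Real.log q := by
        have h6 := Nat.pow_log_le_self 2 (by omega : q ≠ 0)
        have h7 : ((2 : ℝ)) ^ (Nat.log 2 q) ≤ q := by exact_mod_cast h6
        have h8 := Real.log_le_log (by positivity) h7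
        rwa [Real.log_pow] at h8
      have h6 : Real.log q ≤ Real.log 2 + L := by
        have hq0 : (0 : ℝ) < q := by exact_mod_cast hq
        have h7 : (q : ℝ) ≤ 2 * N := by exact_mod_cast hqN
        have h8 := Real.log_le_log hq0 h7
        rwa [Real.log_mul (by norm_num) hN0.ne'] at h8
      have h7 : 1 / 2 ≤ Real.log 2 := by
        have := Real.log_two_gt_d9
        linarith
      have h8 : Real.log 2 ≤ L := by
        have := Real.log_two_lt_d9
        linarith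
      have h9 : (Nat.log 2 q : ℝ) * (1 / 2) ≤ (Nat.log 2 q : ℝ) * Real.log 2 :=
        mul_le_mul_of_nonneg_left h7 (Nat.cast_nonneg _)
      linarith
    have e3 : (k : ℝ) * (Nat.log 2 q) / z ≤ η / 2 := by
      rw [div_le_iff₀ hz0]
      have h5 : 8 * (k : ℝ) ≤ η * L := by
        have : 8 * k / η ≤ L := by linarith
        rwa [div_le_iff₀ hη, mul_comm L η] at this
      calc (k : ℝ) * (Nat.log 2 q) ≤ k * (4 * L) := mul_le_mul_of_nonneg_left e2 (by linarith)
        _ = 8 * k * L / 2 := by ring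
        _ ≤ η * L * L / 2 := by
            have := mul_le_mul_of_nonneg_right h5 hL0.le
            linarith
        _ = η / 2 * (L * L) := by ring
        _ ≤ η / 2 * z := mul_le_mul_of_nonneg_left hLz2 (by positivity)
    linarith
  have hM : ∀ a : ℕ, MQ (shift G Y) z ⌊(N : ℝ) / L ^ B⌋₊ a = MQ G z ⌊(N : ℝ) / L ^ B⌋₊ (a + Y) := by
    intro a
    unfold MQ
    simp only [shift_eval]
  have hmem : ∀ a q : ℕ, q ∈ MQ G z ⌊(N : ℝ) / L ^ B⌋₊ a → 1 ≤ q ∧ q ≤ 2 * N := by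
    intro a q hq
    unfold MQ at hq
    rw [mem_filter, mem_Ioc] at hq
    exact ⟨by omega, hQN q hq.1.2⟩
  have hpw : ∀ u : ℕ, u ≤ max u1 u2 → z ^ u ≤ N := fun u hu => (Nat.pow_le_pow_right hz1 hu).trans hzN
  obtain ⟨a1, a11, a12, a13, a14⟩ := g1 Y z hY hz (hpw u1 (le_max_left _ _))
  obtain ⟨a2, a21, a22, a23, a24⟩ := g2 Y z hY hz (hpw u2 (le_max_right _ _))
  constructor
  · refine ⟨a1 + Y, by omega, by push_cast; linarith, ?_, ?_⟩
    · rw [hM] at a13
      have e1 : (1 - η / 2) * ∑ q ∈ MQ G z ⌊(N : ℝ) / L ^ B⌋₊ (a1 + Y), dens G z * (1 / (rhoG G q : ℝ)) * N ≤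
          ∑ q ∈ MQ G z ⌊(N : ℝ) / L ^ B⌋₊ (a1 + Y), expS G z N q := by
        rw [mul_sum]
        exact sum_le_sum fun q hq => hRlo q (hmem _ q hq).1 (hmem _ q hq).2
      have e2 : 0 < (1 - η / 2) * ∑ q ∈ MQ G z ⌊(N : ℝ) / L ^ B⌋₊ (a1 + Y), dens G z * (1 / (rhoG G q : ℝ)) * N :=
        mul_pos (by linarith) a13
      linarith
    · rw [hM] at a13 a14
      have e1 : ∑ q ∈ MQ G z ⌊(N : ℝ) / L ^ B⌋₊ (a1 + Y), expS G z N q ≤
          ∑ q ∈ MQ G z ⌊(N : ℝ) / L ^ B⌋₊ (a1 + Y), dens G z * (1 / (rhoG G q : ℝ)) * N :=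
        sum_le_sum fun q hq => hRup q (hmem _ q hq).1
      simp only [cntS_eq] at a14
      have e2 : (-1 : ℝ) ^ (2 * (K1 + 1)) = 1 := by rw [pow_mul]; norm_num
      rw [e2, one_mul] at a14
      have e3 : (1 + η / 2) * ∑ q ∈ MQ G z ⌊(N : ℝ) / L ^ B⌋₊ (a1 + Y), expS G z N q ≤
          (1 + η) * ∑ q ∈ MQ G z ⌊(N : ℝ) / L ^ B⌋₊ (a1 + Y), dens G z * (1 / (rhoG G q : ℝ)) * N := by
        apply mul_le_mul (by linarith) e1 _ (by linarith)
        refine sum_nonneg fun q hq => ?_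
        have e4 := hRlo q (hmem _ q hq).1 (hmem _ q hq).2
        have e5 : 0 ≤ (1 - η / 2) * (dens G z * (1 / (rhoG G q : ℝ)) * N) := by
          apply mul_nonneg (by linarith)
          have := dens_pos hadm z
          positivity
        linarith
      linarith
  · refine ⟨a2 + Y, by omega, by push_cast; linarith, ?_, ?_⟩
    · rw [hM] at a23
      have e1 : (1 - η / 2) * ∑ q ∈ MQ G z ⌊(N : ℝ) / L ^ B⌋₊ (a2 + Y), dens G z * (1 / (rhoG G q : ℝ)) * N ≤
          ∑ q ∈ MQ G z ⌊(N : ℝ) / L ^ B⌋₊ (a2 + Y), expS G z N q := by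
        rw [mul_sum]
        exact sum_le_sum fun q hq => hRlo q (hmem _ q hq).1 (hmem _ q hq).2
      have e2 : 0 < (1 - η / 2) * ∑ q ∈ MQ G z ⌊(N : ℝ) / L ^ B⌋₊ (a2 + Y), dens G z * (1 / (rhoG G q : ℝ)) * N :=
        mul_pos (by linarith) a23
      linarith
    · rw [hM] at a23 a24
      have e1 : (1 - η / 2) * ∑ q ∈ MQ G z ⌊(N : ℝ) / L ^ B⌋₊ (a2 + Y), dens G z * (1 / (rhoG G q : ℝ)) * N ≤
          ∑ q ∈ MQ G z ⌊(N : ℝ) / L ^ B⌋₊ (a2 + Y), expS G z N q := by
        rw [mul_sum]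
        exact sum_le_sum fun q hq => hRlo q (hmem _ q hq).1 (hmem _ q hq).2
      simp only [cntS_eq] at a24
      have e2 : (-1 : ℝ) ^ (2 * (K1 + 1) + 1) = -1 := by
        rw [pow_succ, pow_mul]
        norm_num
      rw [e2] at a24
      set T1 := ∑ q ∈ MQ G z ⌊(N : ℝ) / L ^ B⌋₊ (a2 + Y), dens G z * (1 / (rhoG G q : ℝ)) * N with hT1
      set T2 := ∑ q ∈ MQ G z ⌊(N : ℝ) / L ^ B⌋₊ (a2 + Y), expS G z N q with hT2
      have e3 : (1 - η / 2) * ((1 - η / 2) * T1) ≤ (1 - η / 2) * T2 := mul_le_mul_of_nonneg_left e1 (by linarith)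
      have e4 : (1 - η) * T1 ≤ (1 - η / 2) * ((1 - η / 2) * T1) := by
        have : 0 ≤ (η / 2) ^ 2 * T1 := by positivity
        linarith [this, (by ring : (1 - η / 2) * ((1 - η / 2) * T1) = (1 - η) * T1 + (η / 2) ^ 2 * T1)]
      linarith

end Pool.Agent.H537.TR
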