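import Pool.Agent.H537.TR.Fin2
import Pool.Agent.H537.TR.Par2

/-! The exact limit of the equidistribution of the sifted values. -/

set_option autoImplicit false
set_option maxHeartbeats 4000000

open Finset Polynomial Filter

namespace Pool.Agent.H537.TR

open Pool.Agent.H537.FG Pool.Agent.N914.MR Pool.Agent.H537.FT Pool.Agent.H537.GP

open Pool.Agent.X50.LG (HasRoot)

theorem fac_pos {G : ℤ[X]} (hadm : ∀ p : ℕ, p.Prime → omG G p < p) {p : ℕ} (hp : p.Prime) :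
    0 < 1 - (omG G p : ℝ) / p := by
  have h5 : (omG G p : ℝ) < p := by exact_mod_cast hadm p hp
  have hp0 : (0 : ℝ) < p := by exact_mod_cast hp.pos
  have : (omG G p : ℝ) / p < 1 := by
    rw [div_lt_one hp0]
    exact h5
  linarith

theorem expS_eq {G : ℤ[X]} (hadm : ∀ p : ℕ, p.Prime → omG G p < p) {z N q : ℕ} (hq : 1 ≤ q) :
    dens G z * (gg (hT G z) q / q) * N = expS G z N q := by
  have e1 : dens G z = (∏ p ∈ (Icc 1 z).filter (fun p : ℕ => p.Prime ∧ ¬ p ∣ q), (1 - (omG G p : ℝ) / p)) *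
      ∏ p ∈ q.primeFactors.filter (fun p => p ≤ z), (1 - (omG G p : ℝ) / p) := by
    unfold dens
    rw [← prod_filter_mul_prod_filter_not ((Icc 1 z).filter Nat.Prime) (fun p => ¬ p ∣ q), filter_filter, filter_filter]
    congr 1
    apply prod_congr _ fun _ _ => rfl
    ext p
    rw [mem_filter, mem_filter, mem_Icc, Nat.mem_primeFactors, not_not]
    constructor
    · rintro ⟨h5, h6, h7⟩
      exact ⟨⟨h6, h7, by omega⟩, by omega⟩
    · rintro ⟨⟨h5, h6, _⟩, h7⟩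
      exact ⟨⟨h5.one_lt.le, by omega⟩, h5, h6⟩
  have e2 : gg (hT G z) q * ∏ p ∈ q.primeFactors.filter (fun p => p ≤ z), (1 - (omG G p : ℝ) / p) = 1 := by
    unfold gg
    rw [← prod_filter_mul_prod_filter_not q.primeFactors (fun p => p ≤ z)]
    have h1 : ∏ p ∈ q.primeFactors.filter (fun p => ¬ p ≤ z), (1 + hT G z p) = 1 := by
      apply prod_eq_one
      intro p hp
      unfold hT
      rw [if_neg (mem_filter.mp hp).2, add_zero]
    rw [h1, mul_one, ← prod_mul_distrib]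
    apply prod_eq_one
    intro p hp
    have hpp := Nat.prime_of_mem_primeFactors (mem_filter.mp hp).1
    unfold hT
    rw [if_pos (mem_filter.mp hp).2]
    unfold hG
    have h2 : (omG G p : ℝ) < p := by exact_mod_cast hadm p hpp
    have h0 : (0 : ℝ) ≤ omG G p := Nat.cast_nonneg _
    have hp0 : (p : ℝ) ≠ 0 := by linarith
    have h3 : (p : ℝ) - omG G p ≠ 0 := by linarith
    field_simp
    ring
  have hq0 : (q : ℝ) ≠ 0 := by
    have : q ≠ 0 := by omega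
    exact_mod_cast this
  unfold expS
  rw [e1]
  calc _ = (N : ℝ) / q * (∏ p ∈ (Icc 1 z).filter (fun p : ℕ => p.Prime ∧ ¬ p ∣ q), (1 - (omG G p : ℝ) / p)) *
        (gg (hT G z) q * ∏ p ∈ q.primeFactors.filter (fun p => p ≤ z), (1 - (omG G p : ℝ) / p)) := by ring
    _ = _ := by rw [e2, mul_one]

theorem expS_pos {G : ℤ[X]} (hadm : ∀ p : ℕ, p.Prime → omG G p < p) {z N q : ℕ} (hq : 1 ≤ q) (hN : 1 ≤ N) :
    0 < expS G z N q := by
  unfold expS
  have hq0 : (0 : ℝ) < q := by exact_mod_cast hq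
  have hN0 : (0 : ℝ) < N := by exact_mod_cast hN
  apply mul_pos (by positivity)
  exact prod_pos fun p hp => fac_pos hadm (mem_filter.mp hp).2.1

open Classical in
/-- small moduli -/
theorem small_mod2 (k : ℕ) {η : ℝ} (hη : 0 < η) : ∃ u z0 : ℕ, 1 ≤ u ∧ 2 ≤ z0 ∧ ∀ (G : ℤ[X]) (z Z q a y : ℕ),
    G.natDegree ≤ k → (∀ p : ℕ, p.Prime → omG G p < p) → z0 ≤ Z → z ≤ Z → 1 ≤ q →
    (∀ p : ℕ, p.Prime → p ≤ z → p ∣ q → ¬ (p : ℤ) ∣ G.eval (a : ℤ)) → q * Z ^ u ≤ y →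
    |cntW (Wz G z) y a q - expS G z y q| ≤ η * expS G z y q := by
  obtain ⟨u, z0, hu, hz0, hF⟩ := fundG k hη
  refine ⟨u, z0, hu, hz0, fun G z Z q a y hdeg hadm hZ hzZ hq hgcd hy => ?_⟩
  set P : Finset ℕ := (Icc 1 z).filter (fun p : ℕ => p.Prime ∧ ¬ p ∣ q) with hP
  have hPm : ∀ p ∈ P, p.Prime ∧ p ≤ z ∧ ¬ p ∣ q := by
    intro p hp
    rw [hP, mem_filter, mem_Icc] at hp
    exact ⟨hp.2.1, hp.1.2, hp.2.2⟩
  have h1 := hF Z hZ q a y hq hy P (fun p b => (p : ℤ) ∣ G.eval (b : ℤ)) (omG G)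
    (fun p hp => ⟨(hPm p hp).1, (hPm p hp).2.1.trans hzZ, hadm p (hPm p hp).1, (omG_le (hPm p hp).1 (hadm p (hPm p hp).1)).trans hdeg⟩)
    (fun p hp => (hPm p hp).2.2) (fun p _ => by
      unfold omG
      apply congrArg card
      ext n
      simp only [mem_filter])
  have h2 : ((((Icc 1 y).filter (fun n : ℕ => n ≡ a [MOD q] ∧ ∀ p ∈ P, ¬ (p : ℤ) ∣ G.eval ((n % p : ℕ) : ℤ))).card : ℕ) : ℝ) =
      cntW (Wz G z) y a q := by
    unfold cntW Wz
    rw [← sum_filter, sum_const, nsmul_eq_mul, mul_one, filter_filter]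
    congr 2
    apply filter_congr
    intro n _
    constructor
    · rintro ⟨h3, h4⟩
      refine ⟨h3, fun p hp hpz hd => ?_⟩
      by_cases hpq : p ∣ q
      · exact hgcd p hp hpz hpq ((dvd_congr G (h3.of_dvd hpq)).mp hd)
      · have h5 : p ∈ P := by
          rw [hP, mem_filter, mem_Icc]
          exact ⟨⟨hp.one_lt.le, hpz⟩, hp, hpq⟩
        exact h4 p h5 ((dvd_congr G (Nat.mod_modEq n p)).mpr hd)
    · rintro ⟨h3, h4⟩
      refine ⟨h3, fun p hp hd => ?_⟩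
      exact h4 p (hPm p hp).1 (hPm p hp).2.1 ((dvd_congr G (Nat.mod_modEq n p)).mp hd)
  rw [← h2]
  unfold expS
  refine le_trans (le_of_eq ?_) h1
  apply congrArg
  apply congrArg₂ _ _ rfl
  apply congrArg
  apply congrArg card
  ext n
  simp only [mem_filter]

open Classical in
theorem one_parity2 (G f : ℤ[X]) (hf : Irreducible (f.map (Int.castRingHom ℚ))) (hfG : f ∣ G)
    (hadm : ∀ p : ℕ, p.Prime → omG G p < p) (A B : ℝ) (hA : 0 < A) (hB : 0 < B) (K : ℕ) (hK2 : 2 ≤ K) (hBK : B < K)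
    (hAK : B ≤ A * K) :
    ∃ η₀ : ℝ, 0 < η₀ ∧ ∀ η : ℝ, 0 < η → η ≤ η₀ → ∃ u : ℕ, ∀ D : ℝ, 0 ≤ D → ∀ ε : ℝ, 0 < ε →
      ∀ᶠ N : ℕ in atTop, ∀ Y z : ℕ, (Y : ℝ) ≤ (N : ℝ) ^ D → Real.log N ^ A ≤ z → z ^ u ≤ N →
      ∃ a : ℕ, 1 ≤ a ∧ (a : ℝ) ≤ (N : ℝ) ^ ε ∧
        0 < ∑ q ∈ MQ (shift G Y) z ⌊(N : ℝ) / Real.log N ^ B⌋₊ a, expS G z N q ∧
        η * ∑ q ∈ MQ (shift G Y) z ⌊(N : ℝ) / Real.log N ^ B⌋₊ a, expS G z N q ≤
          (-1) ^ K * (∑ q ∈ MQ (shift G Y) z ⌊(N : ℝ) / Real.log N ^ B⌋₊ a, cntW (Wz (shift G Y) z) N a q -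
            ∑ q ∈ MQ (shift G Y) z ⌊(N : ℝ) / Real.log N ^ B⌋₊ a, expS G z N q) := by
  have hK0 : (0 : ℝ) < K := by
    have : 0 < K := by omega
    exact_mod_cast this
  obtain ⟨c0, hc0, w0, hroot⟩ := root_range f hf (θ := 1 / (2 * (K : ℝ))) (by positivity)
  obtain ⟨η₀, hη₀, hpar⟩ := parityS G.natDegree c0 hc0 B hB K hK2 hBK
  refine ⟨η₀, hη₀, fun η hη hηle => ?_⟩
  obtain ⟨u1, z0, hu1, hz0, hsm⟩ := small_mod2 G.natDegree hη
  obtain ⟨m, hm⟩ := exists_nat_gt ((B + 1) / A)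
  refine ⟨u1 + 2 * m, fun D hD ε hε => ?_⟩
  obtain ⟨Cv, hCv⟩ := value_le G
  set d := G.natDegree with hd
  set E : ℝ := (D + 2) * d + 1 with hE
  have hE0 : 0 < E := by positivity
  have hlogX : Tendsto (fun X : ℕ => Real.log (X : ℝ)) atTop atTop :=
    Real.tendsto_log_atTop.comp tendsto_natCast_atTop_atTop
  have hL1 := hlogX.eventually (parL B hB K hK2 1 1 w0 one_pos one_pos)
  filter_upwards [hpar η hη hηle E hE0 ε hε, hL1, hlogX.eventually_ge_atTop (1 : ℝ),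
    hlogX.eventually ((tendsto_rpow_atTop hA).eventually_ge_atTop (z0 : ℝ)), eventually_ge_atTop (Cv + 3)]
    with N h1 h2 h3 h3' h4
  intro Y z hY hz hzN
  set L := Real.log (N : ℝ) with hL
  have hL0 : 0 < L := by linarith
  have hN0 : (0 : ℝ) < N := by
    have : 0 < N := by omega
    exact_mod_cast this
  have hN1 : (1 : ℝ) ≤ N := by
    have : 1 ≤ N := by omega
    exact_mod_cast this
  have hN3 : (3 : ℝ) ≤ N := by
    have : 3 ≤ N := by omega
    exact_mod_cast this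
  have hadm' : ∀ p : ℕ, p.Prime → omG (shift G Y) p < p := fun p hp => by
    rw [omG_shift]
    exact hadm p hp
  have hz0' : z0 ≤ z := by
    have : (z0 : ℝ) ≤ z := h3'.trans hz
    exact_mod_cast this
  have hz1 : (1 : ℝ) ≤ z := by
    have : 1 ≤ z := by omega
    exact_mod_cast this
  have hzpos : (0 : ℝ) < z := by linarith
  have hLB1 : L ^ (B + 1) ≤ (z : ℝ) ^ m := by
    have e1 : (L ^ A) ^ ((B + 1) / A) = L ^ (B + 1) := by
      rw [← Real.rpow_mul hL0.le]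
      congr 1
      field_simp
    rw [← e1]
    calc (L ^ A) ^ ((B + 1) / A) ≤ (z : ℝ) ^ ((B + 1) / A) :=
          Real.rpow_le_rpow (Real.rpow_nonneg hL0.le _) hz (by positivity)
      _ ≤ (z : ℝ) ^ (m : ℝ) := Real.rpow_le_rpow_of_exponent_le hz1 hm.le
      _ = (z : ℝ) ^ m := Real.rpow_natCast _ _
  have hexpe : ∀ q y : ℕ, expS (shift G Y) z y q = expS G z y q := by
    intro q y
    unfold expS
    simp only [omG_shift]
  obtain ⟨a, ha1, ha2, ha3, hQ1, ha4⟩ := h1 (shift G Y) N z (Wz (shift G Y) z) (fun y => (y : ℝ)) 1 (dens (shift G Y) z)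
    (by rw [shift_deg])
    (by
      intro a haN
      rw [shift_eval]
      have e1 := hCv (a + Y) (N + Y) (by omega) (by omega)
      have e2 : ((G.eval ((a + Y : ℕ) : ℤ)).natAbs : ℝ) ≤ Cv * ((N + Y : ℕ) : ℝ) ^ d := by
        rw [Nat.cast_natAbs]
        exact_mod_cast e1
      have e4 : ((N + Y : ℕ) : ℝ) ≤ (N : ℝ) ^ (D + 2) := by
        push_cast
        have e5 : (1 : ℝ) ≤ (N : ℝ) ^ D := Real.one_le_rpow hN1 hD
        have e6 : (N : ℝ) ^ (D + 2) = (N : ℝ) ^ D * ((N : ℝ) * N) := by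
          rw [Real.rpow_add hN0, show (2 : ℝ) = ((2 : ℕ) : ℝ) by norm_num, Real.rpow_natCast, sq]
        rw [e6]
        have e7 : (N : ℝ) + 1 ≤ (N : ℝ) * N := by nlinarith
        nlinarith
      have e8 : (Cv : ℝ) ≤ N := by
        have : Cv ≤ N := by omega
        exact_mod_cast this
      calc ((G.eval ((a + Y : ℕ) : ℤ)).natAbs : ℝ) ≤ Cv * ((N + Y : ℕ) : ℝ) ^ d := e2
        _ ≤ N * ((N : ℝ) ^ (D + 2)) ^ d := by
            apply mul_le_mul e8 (pow_le_pow_left₀ (by positivity) e4 _) (by positivity) hN0.le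
        _ = (N : ℝ) ^ E := by
            rw [hE, ← Real.rpow_natCast, ← Real.rpow_mul hN0.le, Real.rpow_add hN0, Real.rpow_one]
            ring)
    hadm'
    (by
      obtain ⟨g1, g2, g3, g4, g5, g6, g7⟩ := h2
      have hw : w0 ≤ wF B K L := by exact_mod_cast g1
      refine (hroot (wF B K L) (zF B K L) hw g3).trans ?_
      apply sum_le_sum_of_subset_of_nonneg
      · intro p hp
        rw [mem_filter] at hp ⊢
        refine ⟨hp.1, hp.2.1, ?_⟩
        obtain ⟨r, hr⟩ := root_nat hp.2.1 hp.2.2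
        refine ⟨r + (p - 1) * Y, ?_⟩
        rw [shift_eval]
        have e1 : r + (p - 1) * Y + Y = r + p * Y := by
          have := hp.2.1.pos
          obtain ⟨m, rfl⟩ : ∃ m, p = m + 1 := ⟨p - 1, by omega⟩
          simp only [Nat.add_sub_cancel]
          ring
        rw [e1]
        have e2 : r + p * Y ≡ r [MOD p] := by
          unfold Nat.ModEq
          simp
        exact (dvd_congr G e2).mpr (dvd_trans hr (Polynomial.eval_dvd hfG))
      · intro p _ _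
        positivity)
    (by linarith) le_rfl one_pos (dens_pos hadm' z)
    (by
      unfold zF
      apply Nat.floor_le_of_le
      refine le_trans ?_ hz
      apply Real.rpow_le_rpow_of_exponent_le h3
      rw [div_le_iff₀ hK0]
      exact hAK)
    (by
      intro n hn p hp hd
      unfold Wz at hn
      rw [ne_eq, ite_eq_right_iff, Classical.not_imp] at hn
      by_contra hc
      exact hn.1 p hp (by omega) hd)
    (by
      intro y _ _
      rw [one_mul, sub_self, abs_zero]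
      positivity)
    (by
      intro q a y hq hqL hg hy1 hy2
      rw [expS_eq hadm' hq]
      refine hsm (shift G Y) z z q a y (by rw [shift_deg]) hadm' hz0' le_rfl hq hg ?_
      have e2 : (q : ℝ) * (z : ℝ) ^ u1 ≤ y := by
        refine le_trans ?_ hy1
        have hLB : 0 < L ^ (B + 1) := Real.rpow_pos_of_pos hL0 _
        rw [le_div_iff₀ hLB]
        calc (q : ℝ) * (z : ℝ) ^ u1 * L ^ (B + 1) ≤ (z : ℝ) ^ m * (z : ℝ) ^ u1 * (z : ℝ) ^ m := by
              apply mul_le_mul _ hLB1 hLB.le (by positivity)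
              exact mul_le_mul_of_nonneg_right (hqL.trans hLB1) (by positivity)
          _ = (z : ℝ) ^ (u1 + 2 * m) := by ring
          _ ≤ N := by exact_mod_cast hzN
      exact_mod_cast e2)
  have hsum : ∑ q ∈ MQ (shift G Y) z ⌊(N : ℝ) / L ^ B⌋₊ a, dens (shift G Y) z * (gg (hT (shift G Y) z) q / q) * N =
      ∑ q ∈ MQ (shift G Y) z ⌊(N : ℝ) / L ^ B⌋₊ a, expS G z N q := by
    refine sum_congr rfl fun q hq => ?_
    unfold MQ at hq
    rw [mem_filter, mem_Ioc] at hq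
    rw [expS_eq hadm' (by omega), hexpe]
  refine ⟨a, ha1, ha2, ?_, ?_⟩
  · set Q := ⌊(N : ℝ) / L ^ B⌋₊ with hQd
    obtain ⟨j, hj1, hj2⟩ : ∃ j : ℕ, Q < 2 ^ j ∧ 2 ^ j ≤ 2 * Q := by
      refine ⟨Nat.log 2 Q + 1, Nat.lt_pow_succ_log_self (by norm_num) Q, ?_⟩
      rw [pow_succ]
      have := Nat.pow_log_le_self 2 (by omega : Q ≠ 0)
      omega
    have hmem : 2 ^ j ∈ MQ (shift G Y) z Q a := by
      unfold MQ
      rw [mem_filter, mem_Ioc]
      refine ⟨⟨hj1, hj2⟩, fun p hp _ hpd => ?_⟩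
      have hp2 : p = 2 := (Nat.prime_dvd_prime_iff_eq hp Nat.prime_two).mp (hp.dvd_of_dvd_pow hpd)
      rw [hp2]
      exact_mod_cast ha3
    refine sum_pos (fun q hq => ?_) ⟨2 ^ j, hmem⟩
    unfold MQ at hq
    rw [mem_filter, mem_Ioc] at hq
    exact expS_pos hadm (by omega) (by omega)
  · rw [← hsum]
    unfold MQ
    exact ha4

open Classical in
/-- the limits to the equidistribution, all sifting limits above a power of the logarithm -/
theorem main2 (G : ℤ[X]) (hG : 0 < G.natDegree) (hadm : ∀ p : ℕ, p.Prime → omG G p < p) (A B : ℝ)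
    (hA : 0 < A) (hB : 0 < B) :
    ∃ h : ℝ, 0 < h ∧ ∃ u : ℕ, ∀ D : ℝ, 0 ≤ D → ∀ ε : ℝ, 0 < ε →
      ∀ᶠ N : ℕ in atTop, ∀ Y z : ℕ, (Y : ℝ) ≤ (N : ℝ) ^ D → Real.log N ^ A ≤ z → z ^ u ≤ N →
      (∃ a : ℕ, Y < a ∧ (a : ℝ) ≤ Y + (N : ℝ) ^ ε ∧
        0 < ∑ q ∈ MQ G z ⌊(N : ℝ) / Real.log N ^ B⌋₊ a, expS G z N q ∧
        (1 + h) * ∑ q ∈ MQ G z ⌊(N : ℝ) / Real.log N ^ B⌋₊ a, expS G z N q ≤
          ∑ q ∈ MQ G z ⌊(N : ℝ) / Real.log N ^ B⌋₊ a, (cntS G z Y N q a : ℝ)) ∧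
      (∃ a : ℕ, Y < a ∧ (a : ℝ) ≤ Y + (N : ℝ) ^ ε ∧
        0 < ∑ q ∈ MQ G z ⌊(N : ℝ) / Real.log N ^ B⌋₊ a, expS G z N q ∧
        ∑ q ∈ MQ G z ⌊(N : ℝ) / Real.log N ^ B⌋₊ a, (cntS G z Y N q a : ℝ) ≤
          (1 - h) * ∑ q ∈ MQ G z ⌊(N : ℝ) / Real.log N ^ B⌋₊ a, expS G z N q) := by
  obtain ⟨f, hf, hfG⟩ := irr_factor G hG
  obtain ⟨K1, hK1⟩ := exists_nat_gt (max B (B / A))
  have hK1B : B < K1 := (le_max_left _ _).trans_lt hK1
  have hK1A : B ≤ A * K1 := by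
    have : B / A ≤ K1 := (le_max_right _ _).trans hK1.le
    rw [div_le_iff₀ hA] at this
    linarith
  have hK10 : (0 : ℝ) ≤ K1 := Nat.cast_nonneg _
  obtain ⟨η1, hη1, h1⟩ := one_parity2 G f hf hfG hadm A B hA hB (2 * (K1 + 1)) (by omega)
    (by push_cast; linarith) (by push_cast; nlinarith)
  obtain ⟨η2, hη2, h2⟩ := one_parity2 G f hf hfG hadm A B hA hB (2 * (K1 + 1) + 1) (by omega)
    (by push_cast; linarith) (by push_cast; nlinarith)
  set η := min η1 η2 with hηd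
  have hη : 0 < η := lt_min hη1 hη2
  obtain ⟨u1, hu1⟩ := h1 η hη (min_le_left _ _)
  obtain ⟨u2, hu2⟩ := h2 η hη (min_le_right _ _)
  refine ⟨η, hη, max u1 u2, fun D hD ε hε => ?_⟩
  have hlogX : Tendsto (fun X : ℕ => Real.log (X : ℝ)) atTop atTop :=
    Real.tendsto_log_atTop.comp tendsto_natCast_atTop_atTop
  filter_upwards [hu1 D hD ε hε, hu2 D hD ε hε, hlogX.eventually_ge_atTop (1 : ℝ)] with N g1 g2 g3
  intro Y z hY hz hzN
  set L := Real.log (N : ℝ) with hL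
  have hz1 : 1 ≤ z := by
    have h1 : (1 : ℝ) ≤ L ^ A := Real.one_le_rpow g3 hA.le
    have : (1 : ℝ) ≤ z := h1.trans hz
    exact_mod_cast this
  have hM : ∀ a : ℕ, MQ (shift G Y) z ⌊(N : ℝ) / L ^ B⌋₊ a = MQ G z ⌊(N : ℝ) / L ^ B⌋₊ (a + Y) := by
    intro a
    unfold MQ
    simp only [shift_eval]
  have hpw : ∀ u : ℕ, u ≤ max u1 u2 → z ^ u ≤ N := fun u hu => (Nat.pow_le_pow_right hz1 hu).trans hzN
  obtain ⟨a1, a11, a12, a13, a14⟩ := g1 Y z hY hz (hpw u1 (le_max_left _ _))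
  obtain ⟨a2, a21, a22, a23, a24⟩ := g2 Y z hY hz (hpw u2 (le_max_right _ _))
  rw [hM] at a13 a14 a23 a24
  simp only [cntS_eq] at a14 a24
  constructor
  · refine ⟨a1 + Y, by omega, by push_cast; linarith, a13, ?_⟩
    have e2 : (-1 : ℝ) ^ (2 * (K1 + 1)) = 1 := by rw [pow_mul]; norm_num
    rw [e2, one_mul] at a14
    linarith
  · refine ⟨a2 + Y, by omega, by push_cast; linarith, a23, ?_⟩
    have e2 : (-1 : ℝ) ^ (2 * (K1 + 1) + 1) = -1 := by
      rw [pow_succ, pow_mul]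
      norm_num
    rw [e2] at a24
    linarith

/-- below every power of the logarithm the sifted values are equidistributed, for all these moduli -/
theorem regular (G : ℤ[X]) (hadm : ∀ p : ℕ, p.Prime → omG G p < p) (B : ℝ)
    (hB : 0 < B) (η : ℝ) (hη : 0 < η) :
    ∃ δ : ℝ, 0 < δ ∧ ∀ᶠ N : ℕ in atTop, ∀ Y z q a : ℕ, (z : ℝ) ≤ Real.log N ^ δ → 1 ≤ q →
      (q : ℝ) ≤ 2 * (N / Real.log N ^ B) →
      (∀ p : ℕ, p.Prime → p ≤ z → p ∣ q → ¬ (p : ℤ) ∣ G.eval (a : ℤ)) →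
      |(cntS G z Y N q a : ℝ) - expS G z N q| ≤ η * expS G z N q := by
  obtain ⟨u, z0, hu, hz0, hsm⟩ := small_mod2 G.natDegree hη
  have hu0 : (0 : ℝ) < u := by exact_mod_cast hu
  refine ⟨B / (2 * u), by positivity, ?_⟩
  have hlogX : Tendsto (fun X : ℕ => Real.log (X : ℝ)) atTop atTop :=
    Real.tendsto_log_atTop.comp tendsto_natCast_atTop_atTop
  have hc : 0 < B / (2 * u) := by positivity
  filter_upwards [hlogX.eventually ((tendsto_rpow_atTop hc).eventually_ge_atTop ((z0 : ℝ))),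
    hlogX.eventually ((tendsto_rpow_atTop (half_pos hB)).eventually_ge_atTop (2 : ℝ)),
    hlogX.eventually_ge_atTop (1 : ℝ), eventually_ge_atTop 3] with N h1 h2 h3 h4
  intro Y z q a hz hq hqN hg
  set L := Real.log (N : ℝ) with hL
  have hL0 : 0 < L := by linarith
  have hN0 : (0 : ℝ) < N := by
    have : 0 < N := by omega
    exact_mod_cast this
  set Z := ⌊L ^ (B / (2 * u))⌋₊ with hZ
  have hzZ : z ≤ Z := Nat.le_floor hz
  have hZ0 : z0 ≤ Z := Nat.le_floor h1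
  have hZL : (Z : ℝ) ≤ L ^ (B / (2 * u)) := Nat.floor_le (Real.rpow_nonneg hL0.le _)
  have hZu : (Z : ℝ) ^ u ≤ L ^ (B / 2) := by
    calc (Z : ℝ) ^ u ≤ (L ^ (B / (2 * u))) ^ u := pow_le_pow_left₀ (Nat.cast_nonneg _) hZL u
      _ = L ^ (B / 2) := by
          rw [← Real.rpow_natCast, ← Real.rpow_mul hL0.le]
          congr 1
          field_simp
  have hLB : 0 < L ^ B := Real.rpow_pos_of_pos hL0 _
  have hBB : L ^ B = L ^ (B / 2) * L ^ (B / 2) := by
    rw [← Real.rpow_add hL0]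
    congr 1
    ring
  have hy : q * Z ^ u ≤ N := by
    have : (q : ℝ) * (Z : ℝ) ^ u ≤ N := by
      calc (q : ℝ) * (Z : ℝ) ^ u ≤ 2 * (N / L ^ B) * L ^ (B / 2) :=
            mul_le_mul hqN hZu (by positivity) (by positivity)
        _ = N * (2 / L ^ (B / 2)) := by
            rw [hBB]
            have : L ^ (B / 2) ≠ 0 := (Real.rpow_pos_of_pos hL0 _).ne'
            field_simp
        _ ≤ N * 1 := by
            apply mul_le_mul_of_nonneg_left _ hN0.le
            rw [div_le_one (by linarith)]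
            exact h2
        _ = N := mul_one _
    exact_mod_cast this
  -- a class above `Y`
  have hadm' : ∀ p : ℕ, p.Prime → omG (shift G Y) p < p := fun p hp => by
    rw [omG_shift]
    exact hadm p hp
  obtain ⟨b, hb⟩ : ∃ b : ℕ, b + Y ≡ a [MOD q] := by
    refine ⟨a + (q - 1) * Y, ?_⟩
    have e1 : a + (q - 1) * Y + Y = a + q * Y := by
      obtain ⟨m, rfl⟩ : ∃ m, q = m + 1 := ⟨q - 1, by omega⟩
      simp only [Nat.add_sub_cancel]
      ring
    rw [e1]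
    unfold Nat.ModEq
    simp
  have e1 := hsm (shift G Y) z Z q b N (by rw [shift_deg]) hadm' hZ0 hzZ hq (by
    intro p hp hpz hpq hd
    rw [shift_eval] at hd
    exact hg p hp hpz hpq ((dvd_congr G (hb.of_dvd hpq)).mp hd)) hy
  have e2 : expS (shift G Y) z N q = expS G z N q := by
    unfold expS
    simp only [omG_shift]
  have e3 : cntS G z Y N q (b + Y) = cntS G z Y N q a := by
    classical
    unfold cntS
    congr 1
    apply filter_congr
    intro n _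
    constructor
    · rintro ⟨h5, h6⟩
      exact ⟨h5.trans hb, h6⟩
    · rintro ⟨h5, h6⟩
      exact ⟨h5.trans hb.symm, h6⟩
  rw [cntS_eq, e2, e3] at e1
  exact e1

end Pool.Agent.H537.TR
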